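import Mathlib
import Pool.Agent.H87.GR.Num
import Pool.Agent.H87.PW.Num

/-!
# The numerical inequality: the whole range of the parameter
-/

set_option autoImplicit false

namespace Pool.Agent.H87.PT

open Finset Real
open Pool.Agent.H87.GR (sq_le_exp)
open Pool.Agent.H87.PW (log_four_le)

/-- The numerical condition for the local inequality. -/
def Good (k s τ : ℝ) : Prop :=
  ∀ T Φ : ℝ, 0 < T → (T < 1 / 4 → T * (-log T - 1 / 2) ≤ Φ) →
    (1 / 4 ≤ T → 19 / 100 ≤ Φ ∧ (log T - log 4) / 2 ≤ Φ) →
    τ * (T * (log (k / T) - s)) ≤ Φ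

theorem log_four_ge : 138 / 100 ≤ log 4 := by
  have h1 : log 4 = 2 * log 2 := by
    rw [show (4 : ℝ) = 2 ^ 2 by norm_num, Real.log_pow]
    norm_num
  have := Real.log_two_gt_d9
  rw [h1]
  linarith

theorem log_sixteen : log 16 = 2 * log 4 := by
  rw [show (16 : ℝ) = 4 ^ 2 by norm_num, Real.log_pow]
  norm_num

/-- The saving. -/
noncomputable def tau (k t : ℝ) : ℝ := t / (16 * k) * (1 + log (16 * k / t))

theorem tau_eq (k t : ℝ) (hk : 0 < k) (ht : 0 < t) :
    tau k t = (1 + log (16 * k / t)) * Real.exp (-log (16 * k / t)) := by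
  have h1 : 0 < 16 * k / t := by positivity
  unfold tau
  rw [Real.exp_neg, Real.exp_log h1, inv_div, mul_comm]

theorem tau_nonneg (k t : ℝ) (hk : 0 < k) (ht : 0 < t) (htk : t ≤ 16 * k) : 0 ≤ tau k t := by
  rw [tau_eq k t hk ht]
  have h1 : 0 ≤ log (16 * k / t) := Real.log_nonneg (by rwa [le_div_iff₀ ht, one_mul])
  positivity

theorem tau_le_one (k t : ℝ) (hk : 0 < k) (ht : 0 < t) : tau k t ≤ 1 := by
  rw [tau_eq k t hk ht]
  have h1 := Real.add_one_le_exp (log (16 * k / t))
  have h2 : (1 + log (16 * k / t)) * Real.exp (-log (16 * k / t)) ≤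
      Real.exp (log (16 * k / t)) * Real.exp (-log (16 * k / t)) :=
    mul_le_mul_of_nonneg_right (by linarith) (Real.exp_pos _).le
  rwa [← Real.exp_add, add_neg_cancel, Real.exp_zero] at h2

theorem quad_exp (w : ℝ) (hw : 0 ≤ w) :
    (1 + w) * (w - 138 / 100) ≤ 88 / 100 * Real.exp w := by
  have h1 := Real.quadratic_le_exp_of_nonneg (show 0 ≤ w / 2 by linarith)
  have h2 : Real.exp w = Real.exp (w / 2) * Real.exp (w / 2) := by
    rw [← Real.exp_add]
    congr 1
    ring
  have h3 : (1 + w / 2 + (w / 2) ^ 2 / 2) * (1 + w / 2 + (w / 2) ^ 2 / 2) ≤ Real.exp w := by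
    rw [h2]
    exact mul_le_mul h1 h1 (by positivity) (Real.exp_pos _).le
  refine le_trans ?_ (mul_le_mul_of_nonneg_left h3 (by norm_num : (0 : ℝ) ≤ 88 / 100))
  nlinarith [mul_nonneg hw (sq_nonneg (w - 3)), sq_nonneg (w - 3), sq_nonneg (w ^ 2 - 9),
    mul_nonneg hw hw, mul_nonneg (mul_nonneg hw hw) hw]

theorem good_t (k t : ℝ) (hk : 0 < k) (ht : 0 < t) (htk : t ≤ 16 * k) :
    Good k (log t) (tau k t) := by
  intro T Φ hT h1 h2
  have hτ0 := tau_nonneg k t hk ht htk
  have hτ1 := tau_le_one k t hk ht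
  obtain ⟨w, hw⟩ : ∃ w, w = log (16 * k / t) := ⟨_, rfl⟩
  have hw0 : 0 ≤ w := by
    rw [hw]
    exact Real.log_nonneg (by rwa [le_div_iff₀ ht, one_mul])
  have hτ : tau k t = (1 + w) * Real.exp (-w) := by rw [hw]; exact tau_eq k t hk ht
  have hwv : log (k / T) - log t = w - log 16 - log T := by
    rw [hw, Real.log_div hk.ne' hT.ne', Real.log_div (by positivity) ht.ne',
      Real.log_mul (by norm_num) hk.ne']
    ring
  have h4a := log_four_le
  have h4b := log_four_ge
  have h16 := log_sixteen
  rcases lt_or_ge T (1 / 4) with hx | hx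
  · refine le_trans ?_ (h1 hx)
    have ha : log 4 ≤ -log T := by
      rw [← Real.log_inv]
      refine Real.log_le_log (by norm_num) ?_
      rw [le_inv_comm₀ (by norm_num) hT]
      norm_num at hx ⊢
      linarith
    have h5 : tau k t * (w - log 4) ≤ 88 / 100 := by
      have h6 := quad_exp w hw0
      have h7 : tau k t * (w - log 4) ≤ tau k t * (w - 138 / 100) :=
        mul_le_mul_of_nonneg_left (by linarith) hτ0
      refine h7.trans ?_
      rw [hτ]
      have h8 : (1 + w) * Real.exp (-w) * (w - 138 / 100) =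
          ((1 + w) * (w - 138 / 100)) * Real.exp (-w) := by ring
      rw [h8]
      have h9 := mul_le_mul_of_nonneg_right h6 (Real.exp_pos (-w)).le
      rwa [mul_assoc (88 / 100 : ℝ), ← Real.exp_add, add_neg_cancel, Real.exp_zero, mul_one] at h9
    have h6 : tau k t * (-log T - log 4) ≤ 1 * (-log T - log 4) :=
      mul_le_mul_of_nonneg_right hτ1 (by linarith)
    have h7 : tau k t * (w - log 16 - log T) ≤ -log T - 1 / 2 := by
      have : tau k t * (w - log 16 - log T) = tau k t * (w - log 4) +
          tau k t * (-log T - log 4) := by rw [h16]; ring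
      rw [this]
      linarith
    rw [hwv]
    have h8 := mul_le_mul_of_nonneg_left h7 hT.le
    calc tau k t * (T * (w - log 16 - log T)) = T * (tau k t * (w - log 16 - log T)) := by ring
      _ ≤ _ := h8
  · obtain ⟨h3, h4⟩ := h2 hx
    obtain ⟨v, hv⟩ : ∃ v, v = w - log 16 - log T := ⟨_, rfl⟩
    rw [hwv, ← hv]
    rcases le_or_gt v 0 with hv0 | hv0
    · have : tau k t * (T * v) ≤ 0 :=
        mul_nonpos_of_nonneg_of_nonpos hτ0 (mul_nonpos_of_nonneg_of_nonpos hT.le hv0)
      linarith
    · have hτT : tau k t * T = (1 + w) * Real.exp (-v) / 16 := by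
        rw [hτ]
        have h5 : Real.exp (-v) = Real.exp (-w) * (16 * T) := by
          rw [hv, show -(w - log 16 - log T) = -w + (log 16 + log T) by ring, Real.exp_add,
            Real.exp_add, Real.exp_log (by norm_num), Real.exp_log hT]
        rw [h5]
        ring
      have hlT : -log 4 ≤ log T := by
        rw [← Real.log_inv]
        refine Real.log_le_log (by norm_num) ?_
        norm_num at hx ⊢
        linarith
      have h6 : v * Real.exp (-v) ≤ 37 / 100 := by
        have h7 := Real.add_one_le_exp (v - 1)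
        have h8 : Real.exp (v - 1) = Real.exp v / Real.exp 1 := Real.exp_sub _ _
        rw [h8, le_div_iff₀ (Real.exp_pos _)] at h7
        have h9 := Real.exp_one_gt_d9
        have h10 : v ≤ 37 / 100 * Real.exp v := by nlinarith
        have h11 := mul_le_mul_of_nonneg_right h10 (Real.exp_pos (-v)).le
        rwa [mul_assoc (37 / 100 : ℝ), ← Real.exp_add, add_neg_cancel, Real.exp_zero,
          mul_one] at h11
      have h7 : v ^ 2 * Real.exp (-v) ≤ 5 / 8 := by
        have h8 := sq_le_exp (2 * v) (by linarith)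
        rw [show 2 * v / 2 = v by ring] at h8
        have h10 : v ^ 2 ≤ 5 / 8 * Real.exp v := by nlinarith
        have h11 := mul_le_mul_of_nonneg_right h10 (Real.exp_pos (-v)).le
        rwa [mul_assoc (5 / 8 : ℝ), ← Real.exp_add, add_neg_cancel, Real.exp_zero,
          mul_one] at h11
      have h8 : tau k t * (T * v) = ((1 + log 16 + log T) * (v * Real.exp (-v)) +
          v ^ 2 * Real.exp (-v)) / 16 := by
        rw [← mul_assoc, hτT]
        have : w = v + log 16 + log T := by rw [hv]; ring
        rw [this]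
        ring
      have h9 : (1 + log 16 + log T) * (v * Real.exp (-v)) ≤
          (1 + log 16 + log T) * (37 / 100) :=
        mul_le_mul_of_nonneg_left h6 (by linarith)
      rw [h8]
      rcases le_or_gt (log T) 2 with h10 | h10
      · linarith
      · linarith

end Pool.Agent.H87.PT
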