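import Mathlib
import Pool.Agent.H87.PW.Local
import Pool.Agent.H87.PT.Num

/-!
# The local inequality for every admissible saving
-/

set_option autoImplicit false
set_option linter.unusedSectionVars false

namespace Pool.Agent.H87.PT

open Finset Real
open Pool.Agent.H87.LL
open Pool.Agent.H87.PW
open scoped Pointwise BigOperators

variable {ι : Type*}

/-- The local inequality. -/
theorem local_ineq (k : ℕ) (hk : 1 ≤ k) (F : ℕ) (R : Finset ι) (hR : R.Nonempty)
    (V : ι → Fin k → Fin F) (S : ℤ) (hS : ∀ r ∈ R, ∑ i, ((V r i : ℕ) : ℤ) = S) (s : ℝ)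
    (hs : 0 ≤ s) (τ : ℝ) (hτ0 : 0 ≤ τ) (hgood : Good k s τ) :
    ∑ r ∈ R, (log R.card - log ((R.filter fun r' => V r' = V r).card : ℝ)) ≤
      ∑ i, ((1 - τ) * TH R (fun r => (V r i : ℕ)) F +
        τ * ((3 + s) * CC R (fun r => (V r i : ℕ)) F)) := by
  classical
  have hk0 : (1 : ℝ) ≤ k := by exact_mod_cast hk
  have hkpos : (0 : ℝ) < k := by linarith
  have hRc : (0 : ℝ) < R.card := by exact_mod_cast hR.card_pos
  have hFV : ∀ i, ∀ r ∈ R, (V r i : ℕ) < F := fun i r _ => (V r i).2
  have hspec := fun i => hv_spec R (fun r => (V r i : ℕ)) hR F (hFV i)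
  obtain ⟨e, he⟩ : ∃ e : Fin k → Fin F, ∀ i, ((e i : Fin F) : ℕ) =
      hv R (fun r => (V r i : ℕ)) := ⟨fun i => ⟨_, (hspec i).2.2⟩, fun i => rfl⟩
  obtain ⟨p, hp⟩ : ∃ p : Fin k → Fin F → ℝ, ∀ i v, p i v =
      ((R.filter fun r => (V r i : ℕ) = (v : ℕ)).card : ℝ) / R.card := ⟨_, fun _ _ => rfl⟩
  obtain ⟨n1, hn1⟩ : ∃ n1 : Fin k → ℝ, ∀ i, n1 i = cn R (fun r => (V r i : ℕ))
      (hv R (fun r => (V r i : ℕ)) + 1) := ⟨_, fun _ => rfl⟩
  obtain ⟨u, hu⟩ : ∃ u : Fin k → ℝ, ∀ i, u i = n1 i / R.card := ⟨_, fun _ => rfl⟩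
  have hp0 : ∀ i v, 0 ≤ p i v := fun i v => by
    rw [hp]
    positivity
  have hn10 : ∀ i, 0 ≤ n1 i := fun i => by
    rw [hn1]
    exact cn_nonneg _ _ _
  have hu0 : ∀ i, 0 ≤ u i := fun i => by
    rw [hu]
    exact div_nonneg (hn10 i) hRc.le
  have hsumF : ∀ f : ℕ → ℝ, ∑ v : Fin F, f v = ∑ v ∈ Finset.range F, f v := fun f =>
    Fin.sum_univ_eq_sum_range f F
  have hp1 : ∀ i, ∑ v, p i v = 1 := by
    intro i
    simp only [hp]
    rw [← Finset.sum_div, hsumF (fun v => ((R.filter fun r => (V r i : ℕ) = v).card : ℝ)),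
      Finset.range_eq_Ico, sum_cn R _ 0 F (Nat.zero_le _), cn_zero,
      cn_top R _ F (hFV i), sub_zero, div_self hRc.ne']
  have hu1 : ∀ i, u i = ∑ v ∈ Finset.univ.filter (fun v => e i < v), p i v := by
    intro i
    rw [hu, hn1]
    simp only [hp]
    rw [← Finset.sum_div]
    congr 1
    have h1 := sum_cn R (fun r => (V r i : ℕ)) (hv R (fun r => (V r i : ℕ)) + 1) F (hspec i).2.2
    rw [cn_top R _ F (hFV i), sub_zero] at h1
    rw [← h1, Finset.sum_filter]
    have h2 := hsumF (fun v => if hv R (fun r => (V r i : ℕ)) < v then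
        ((R.filter fun r => (V r i : ℕ) = v).card : ℝ) else 0)
    have h3 : ∀ v : Fin F, (if e i < v then ((R.filter fun r => (V r i : ℕ) = (v : ℕ)).card : ℝ)
        else 0) = if hv R (fun r => (V r i : ℕ)) < (v : ℕ) then
        ((R.filter fun r => (V r i : ℕ) = (v : ℕ)).card : ℝ) else 0 := by
      intro v
      have h4 : (e i < v) ↔ (hv R (fun r => (V r i : ℕ)) < (v : ℕ)) := by
        rw [← he i]
        exact Iff.rfl
      simp only [h4]
    rw [Finset.sum_congr rfl fun v _ => h3 v, h2, ← Finset.sum_filter]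
    refine Finset.sum_congr ?_ fun _ _ => rfl
    ext v
    simp only [Finset.mem_Ico, Finset.mem_filter, Finset.mem_range]
    omega
  have hue : ∀ i, u i ≤ p i (e i) := by
    intro i
    rw [hu, hp, hn1]
    refine div_le_div_of_nonneg_right ?_ hRc.le
    have h1 := cn_lvl R (fun r => (V r i : ℕ)) (hv R (fun r => (V r i : ℕ)))
    have h2 := (hspec i).1
    rw [← he i] at h1 h2 ⊢
    linarith
  have hu12 : ∀ i, u i ≤ 1 / 2 := by
    intro i
    rw [hu, hn1, div_le_iff₀ hRc]
    have h1 := (hspec i).1
    have h2 := cn_anti R (fun r => (V r i : ℕ)) (Nat.zero_le (hv R (fun r => (V r i : ℕ))))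
    rw [cn_zero] at h2
    linarith
  have hplvl : ∀ r ∈ R, ∀ i, 0 < p i (V r i) := by
    intro r hr i
    rw [hp]
    have h2 : (R.filter fun r' => (V r' i : ℕ) = (V r i : ℕ)).Nonempty :=
      ⟨r, Finset.mem_filter.2 ⟨hr, rfl⟩⟩
    have h3 : (0 : ℝ) < (R.filter fun r' => (V r' i : ℕ) = (V r i : ℕ)).card := by
      exact_mod_cast h2.card_pos
    positivity
  have hTH : ∀ i, ∑ r ∈ R, -log (p i (V r i)) = TH R (fun r => (V r i : ℕ)) F := by
    intro i
    rw [← TH_elem R (fun r => (V r i : ℕ)) F (hFV i)]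
    refine Finset.sum_congr rfl fun r _ => ?_
    rw [hp]
  obtain ⟨LHS, hLHS⟩ : ∃ LHS, LHS = ∑ r ∈ R, (log R.card -
    log ((R.filter fun r' => V r' = V r).card : ℝ)) := ⟨_, rfl⟩
  obtain ⟨TT, hTT⟩ : ∃ TT, TT = ∑ i, TH R (fun r => (V r i : ℕ)) F := ⟨_, rfl⟩
  have hprodlog : ∀ r ∈ R, log (∏ i, p i (V r i)) = ∑ i, log (p i (V r i)) := fun r hr =>
    Real.log_prod fun i _ => (hplvl r hr i).ne'
  have hsumTT : ∑ r ∈ R, log (∏ i, p i (V r i)) = -TT := by
    rw [Finset.sum_congr rfl hprodlog, Finset.sum_comm, hTT, ← Finset.sum_neg_distrib]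
    refine Finset.sum_congr rfl fun i _ => ?_
    rw [← hTH i, Finset.sum_neg_distrib, neg_neg]
  have hprodnn : ∀ v : Fin k → Fin F, 0 ≤ ∏ i, p i (v i) := fun v =>
    Finset.prod_nonneg fun i _ => hp0 i _
  -- Gibbs with the product measure
  have hG1 : ∀ Z : ℝ, 0 < Z → ∑ v ∈ R.image V, ∏ i, p i (v i) ≤ Z →
      LHS ≤ TT + R.card * log Z := by
    intro Z hZ hsum
    have h1 := gibbsV R hR V (fun v => ∏ i, p i (v i))
      (fun r hr => Finset.prod_pos fun i _ => hplvl r hr i) Z hZ hsum
    rw [hsumTT, neg_neg, ← hLHS] at h1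
    exact h1
  have himage : ∀ v ∈ R.image V, ∑ i, ((v i : ℕ) : ℤ) = S := by
    intro v hv'
    obtain ⟨r, hr, rfl⟩ := Finset.mem_image.1 hv'
    exact hS r hr
  -- the concentration
  have hcoin : ∀ α γ z : ℝ, 0 ≤ α → 0 ≤ γ → 0 ≤ z → z ≤ 1 →
      (∀ g : ℕ, ((g.choose (g / 2) : ℕ) : ℝ) / 2 ^ g ≤ α + γ * z ^ g) →
      ∑ v ∈ R.image V, ∏ i, p i (v i) ≤ α + γ * ∏ i, (1 - 2 * u i * (1 - z)) := by
    intro α γ z hα hγ hz0 hz1 hb
    have h1 := coin F α γ z hα hγ hz0 hz1 hb k p e u hp0 hp1 hu1 hue 0 (fun i => i.elim0)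
      (fun i => i.elim0) S
    rw [pow_zero, mul_one] at h1
    refine le_trans ?_ h1
    calc ∑ v ∈ R.image V, ∏ i, p i (v i) = ∑ v ∈ R.image V, (∏ i, p i (v i)) *
          cp (fun i : Fin 0 => (i.elim0 : ℕ)) (S - ∑ i, ((v i : ℕ) : ℤ)) := by
          refine Finset.sum_congr rfl fun v hv' => ?_
          rw [himage v hv', sub_self, cp_zero, mul_one]
      _ ≤ _ := Finset.sum_le_sum_of_subset_of_nonneg (Finset.subset_univ _) fun v _ _ =>
          mul_nonneg (hprodnn v) (cp_nonneg _ _)
  obtain ⟨T, hT⟩ : ∃ T, T = ∑ i, u i := ⟨_, rfl⟩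
  have hT0 : 0 ≤ T := hT ▸ Finset.sum_nonneg fun i _ => hu0 i
  have hexp : ∀ z : ℝ, 0 ≤ z → z ≤ 1 → ∏ i, (1 - 2 * u i * (1 - z)) ≤
      Real.exp (-(2 * T * (1 - z))) := by
    intro z hz0 hz1
    calc ∏ i, (1 - 2 * u i * (1 - z)) ≤ ∏ i, Real.exp (-(2 * u i * (1 - z))) := by
          refine Finset.prod_le_prod (fun i _ => ?_) fun i _ => one_sub_le_exp' _
          have := hu12 i
          have := hu0 i
          nlinarith
      _ = Real.exp (-(2 * T * (1 - z))) := by
          rw [← Real.exp_sum, Finset.sum_neg_distrib, hT, ← Finset.sum_mul, ← Finset.mul_sum]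
  -- the costs
  have hcost : ∀ i, TH R (fun r => (V r i : ℕ)) F ≤ (3 + s) * CC R (fun r => (V r i : ℕ)) F +
      rwd s R (fun r => (V r i : ℕ)) := fun i =>
    ent_le s hs R _ hR F (hFV i)
  rw [← hLHS]
  suffices hmain : LHS + τ * ∑ i, rwd s R (fun r => (V r i : ℕ)) ≤ TT by
    have h1 : ∀ i, τ * (TH R (fun r => (V r i : ℕ)) F) ≤
        τ * ((3 + s) * CC R (fun r => (V r i : ℕ)) F) +
          τ * rwd s R (fun r => (V r i : ℕ)) := by
      intro i
      have := mul_le_mul_of_nonneg_left (hcost i) hτ0
      linarith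
    have h2 := Finset.sum_le_sum fun i (_ : i ∈ (Finset.univ : Finset (Fin k))) => h1 i
    rw [Finset.sum_add_distrib, ← Finset.mul_sum (s := Finset.univ)
      (f := fun i => rwd s R (fun r => (V r i : ℕ))), ← Finset.mul_sum (s := Finset.univ)
      (f := fun i => TH R (fun r => (V r i : ℕ)) F), ← hTT] at h2
    rw [Finset.sum_add_distrib]
    have h3 : ∑ i, (1 - τ) * TH R (fun r => (V r i : ℕ)) F = (1 - τ) * TT := by
      rw [← Finset.mul_sum, hTT]
    rw [h3]
    linarith
  -- Jensen
  have hrw : ∀ i, rwd s R (fun r => (V r i : ℕ)) ≤ R.card * (u i * (-log (u i) - s)) := by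
    intro i
    unfold rwd
    rw [← hn1 i]
    rcases (hn10 i).eq_or_lt with h | h
    · rw [hu, ← h]
      simp
    · have h1 : R.card * (u i * (-log (u i) - s)) = n1 i * (log (R.card / n1 i) - s) := by
        rw [hu, ← Real.log_inv, inv_div]
        field_simp
      rw [h1]
      refine mul_le_mul_of_nonneg_left (sub_le_sub_right ?_ s) h.le
      have h2 := cn_anti R (fun r => (V r i : ℕ)) (Nat.zero_le (hv R (fun r => (V r i : ℕ))))
      rw [cn_zero] at h2
      have h3 := (hspec i).1
      rw [← hn1 i] at h3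
      exact Real.log_le_log (div_pos (by linarith) h)
        (div_le_div_of_nonneg_right h2 h.le)
  rcases hT0.eq_or_lt with hT1 | hT1
  · -- no upward deviations
    have h0 : ∀ i, u i = 0 := fun i =>
      (Finset.sum_eq_zero_iff_of_nonneg fun i _ => hu0 i).1 (hT.symm.trans hT1.symm) i
        (Finset.mem_univ i)
    have h1 : ∑ i, rwd s R (fun r => (V r i : ℕ)) ≤ 0 := by
      refine Finset.sum_nonpos fun i _ => ?_
      have := hrw i
      rw [h0 i] at this
      simpa using this
    have h2 := hG1 1 one_pos (by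
      calc ∑ v ∈ R.image V, ∏ i, p i (v i) ≤ ∑ v : Fin k → Fin F, ∏ i, p i (v i) :=
            Finset.sum_le_sum_of_subset_of_nonneg (Finset.subset_univ _) fun v _ _ => hprodnn v
        _ = 1 := full_mass F k p hp1)
    rw [Real.log_one, mul_zero, add_zero] at h2
    have h3 := mul_nonpos_of_nonneg_of_nonpos hτ0 h1
    linarith
  · obtain ⟨Φ, hΦ⟩ : ∃ Φ, Φ = (TT - LHS) / R.card := ⟨_, rfl⟩
    have hΦR : R.card * Φ = TT - LHS := by
      rw [hΦ]
      field_simp
    have hΦge : ∀ x : ℝ, LHS ≤ TT - R.card * x → x ≤ Φ := by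
      intro x hx
      have h1 : R.card * x ≤ R.card * Φ := by
        rw [hΦR]
        linarith
      exact le_of_mul_le_mul_left h1 hRc
    have hjen : ∑ i, rwd s R (fun r => (V r i : ℕ)) ≤ R.card * (T * (log (k / T) - s)) := by
      refine (Finset.sum_le_sum fun i _ => hrw i).trans ?_
      rw [← Finset.mul_sum]
      refine mul_le_mul_of_nonneg_left ?_ hRc.le
      have h1 : ∀ i, u i * (-log (u i) - s) ≤ u i * (log (k / T) - s) + (T / k - u i) := by
        intro i
        rcases (hu0 i).eq_or_lt with h | h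
        · rw [← h]
          simp only [zero_mul, zero_add, sub_zero]
          positivity
        · have h3 := Real.log_le_sub_one_of_pos (show 0 < T / (k * u i) by positivity)
          rw [Real.log_div hT1.ne' (by positivity), Real.log_mul hkpos.ne' h.ne'] at h3
          have h4 := mul_le_mul_of_nonneg_left h3 h.le
          have h5 : u i * (T / (k * u i) - 1) = T / k - u i := by
            field_simp
          rw [h5] at h4
          rw [Real.log_div hkpos.ne' hT1.ne']
          nlinarith
      refine (Finset.sum_le_sum fun i _ => h1 i).trans ?_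
      rw [Finset.sum_add_distrib, ← Finset.sum_mul, ← hT, Finset.sum_sub_distrib, ← hT,
        Finset.sum_const, Finset.card_univ, Fintype.card_fin, nsmul_eq_mul]
      have h6 : (k : ℝ) * (T / k) = T := by field_simp
      rw [h6]
      linarith
    have hΦ1 : T < 1 / 4 → T * (-log T - 1 / 2) ≤ Φ := by
      intro hT4
      apply hΦge
      obtain ⟨M, hM⟩ : ∃ M, M = 2 / 3 / T := ⟨_, rfl⟩
      have hM0 : 0 < M := by rw [hM]; positivity
      have hMT : M * ∑ i, u i ≤ log 2 := by
        rw [← hT, hM]
        have h1 : 2 / 3 / T * T = 2 / 3 := by field_simp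
        rw [h1]
        have := Real.log_two_gt_d9
        linarith
      have hsm := small F M hM0.le k p e u hp0 hp1 hu1 hMT
        (∑ i, ((e i : ℕ) : ℤ) - S)
      have hw0 : ∀ v : Fin k → Fin F, 0 ≤ ∏ i, (p i (v i) * (if e i < v i then M else 1)) :=
        fun v => Finset.prod_nonneg fun i _ => mul_nonneg (hp0 i _) (by
          split_ifs
          · exact hM0.le
          · exact zero_le_one)
      have h1 := gibbsV R hR V (fun v => ∏ i, (p i (v i) * (if e i < v i then M else 1)))
        (fun r hr => Finset.prod_pos fun i _ => mul_pos (hplvl r hr i) (by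
          split_ifs
          · exact hM0
          · exact one_pos)) 1 one_pos (by
          refine le_trans ?_ hsm
          calc ∑ v ∈ R.image V, ∏ i, (p i (v i) * (if e i < v i then M else 1)) =
                ∑ v ∈ R.image V, (if ∑ i, (((e i : ℕ) : ℤ) - ((v i : ℕ) : ℤ)) =
                  ∑ i, ((e i : ℕ) : ℤ) - S then
                  ∏ i, (p i (v i) * (if e i < v i then M else 1)) else 0) := by
                refine Finset.sum_congr rfl fun v hv' => ?_
                rw [if_pos]
                rw [Finset.sum_sub_distrib, himage v hv']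
            _ ≤ _ := Finset.sum_le_sum_of_subset_of_nonneg (Finset.subset_univ _) fun v _ _ => by
                split_ifs
                · exact hw0 v
                · exact le_refl _)
      rw [Real.log_one, mul_zero, add_zero, ← hLHS] at h1
      have h2 : ∑ r ∈ R, log (∏ i, (p i (V r i) * (if e i < V r i then M else 1))) =
          -TT + log M * (R.card * T) := by
        have h3 : ∀ r ∈ R, log (∏ i, (p i (V r i) * (if e i < V r i then M else 1))) =
            log (∏ i, p i (V r i)) + ∑ i, (if e i < V r i then log M else 0) := by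
          intro r hr
          rw [Finset.prod_mul_distrib, Real.log_mul
            (Finset.prod_pos fun i _ => hplvl r hr i).ne' (by
              refine Finset.prod_ne_zero_iff.2 fun i _ => ?_
              split_ifs
              · exact hM0.ne'
              · exact one_ne_zero)]
          congr 1
          rw [Real.log_prod (by
              intro i _
              split_ifs
              · exact hM0.ne'
              · exact one_ne_zero)]
          refine Finset.sum_congr rfl fun i _ => ?_
          split_ifs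
          · rfl
          · exact Real.log_one
        rw [Finset.sum_congr rfl h3, Finset.sum_add_distrib, hsumTT, Finset.sum_comm]
        congr 1
        have h4 : ∀ i, ∑ r ∈ R, (if e i < V r i then log M else 0) = log M * (R.card * u i) := by
          intro i
          rw [← Finset.sum_filter, Finset.sum_const, nsmul_eq_mul, mul_comm]
          congr 1
          rw [hu, hn1]
          have h5 : (R.card : ℝ) * (cn R (fun r => (V r i : ℕ))
              (hv R (fun r => (V r i : ℕ)) + 1) / R.card) = cn R (fun r => (V r i : ℕ))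
              (hv R (fun r => (V r i : ℕ)) + 1) := by
            field_simp
          rw [h5]
          unfold cn
          congr 1
          congr 1
          ext r
          simp only [Finset.mem_filter]
          have h6 : (e i < V r i) ↔ (hv R (fun r => (V r i : ℕ)) + 1 ≤ (V r i : ℕ)) := by
            rw [← he i]
            exact Iff.rfl
          rw [h6]
        rw [Finset.sum_congr rfl fun i _ => h4 i, ← Finset.mul_sum, ← Finset.mul_sum, ← hT]
      rw [h2] at h1
      have h3 : -log T - 1 / 2 ≤ log M := by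
        rw [hM, Real.log_div (by norm_num) hT1.ne']
        have h4 : log (3 / 2 : ℝ) ≤ 3 / 2 - 1 := Real.log_le_sub_one_of_pos (by norm_num)
        have h5 : log (2 / 3 : ℝ) = -log (3 / 2) := by
          rw [← Real.log_inv]
          norm_num
        linarith
      have h4 := mul_le_mul_of_nonneg_right h3 (show 0 ≤ R.card * T by positivity)
      nlinarith
    have hΦ2 : 1 / 4 ≤ T → 19 / 100 ≤ Φ ∧ (log T - log 4) / 2 ≤ Φ := by
      intro hT4
      constructor
      · apply hΦge
        have h1 := hcoin (1 / 2) (1 / 2) 0 (by norm_num) (by norm_num) le_rfl zero_le_one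
          choose_half
        have h2 := hexp 0 le_rfl zero_le_one
        have h3 : Real.exp (-(2 * T * (1 - 0))) ≤ 0.62 := by
          have h4 : Real.exp (-(2 * T * (1 - 0))) ≤ Real.exp (-(1 / 2)) :=
            Real.exp_le_exp.2 (by linarith)
          refine h4.trans ?_
          rw [Real.exp_neg, inv_le_comm₀ (Real.exp_pos _) (by norm_num)]
          have h5 := Real.quadratic_le_exp_of_nonneg (show (0 : ℝ) ≤ 1 / 2 by norm_num)
          norm_num at h5 ⊢
          linarith
        have h4 : ∑ v ∈ R.image V, ∏ i, p i (v i) ≤ 0.81 := by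
          have h5 := h2.trans h3
          norm_num at h1 h5 ⊢
          linarith
        have h5 := hG1 0.81 (by norm_num) h4
        have h6 : log (0.81 : ℝ) ≤ -(19 / 100) := by
          have := Real.log_le_sub_one_of_pos (show (0 : ℝ) < 0.81 by norm_num)
          norm_num at this ⊢
          linarith
        have h7 := mul_le_mul_of_nonneg_left h6 hRc.le
        linarith
      · apply hΦge
        have hz1 : Real.exp (-1) ≤ 1 := Real.exp_le_one_iff.2 (by norm_num)
        have h1 := hcoin (1 / √((⌊T / 2⌋₊ : ℝ) + 1)) (Real.exp ⌊T / 2⌋₊) (Real.exp (-1))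
          (by positivity) (Real.exp_pos _).le (Real.exp_pos _).le hz1 (by
            intro g
            have hb := beta_le g
            rcases le_or_gt (⌊T / 2⌋₊) g with hg | hg
            · have h2 : 1 / √((g : ℝ) + 1) ≤ 1 / √((⌊T / 2⌋₊ : ℝ) + 1) := by
                refine one_div_le_one_div_of_le (by positivity) (Real.sqrt_le_sqrt ?_)
                have : (⌊T / 2⌋₊ : ℝ) ≤ g := by exact_mod_cast hg
                linarith
              have h3 : 0 ≤ Real.exp ⌊T / 2⌋₊ * Real.exp (-1) ^ g := by positivity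
              linarith
            · have h2 : 1 / √((g : ℝ) + 1) ≤ 1 := by
                rw [div_le_one (by positivity)]
                refine Real.le_sqrt_of_sq_le ?_
                have : (0 : ℝ) ≤ g := Nat.cast_nonneg g
                linarith
              have h3 : 1 ≤ Real.exp ⌊T / 2⌋₊ * Real.exp (-1) ^ g := by
                rw [← Real.exp_nat_mul, ← Real.exp_add]
                apply Real.one_le_exp
                have : (g : ℝ) ≤ ⌊T / 2⌋₊ := by exact_mod_cast hg.le
                linarith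
              have h4 : 0 ≤ 1 / √((⌊T / 2⌋₊ : ℝ) + 1) := by positivity
              linarith)
        have h2 := hexp (Real.exp (-1)) (Real.exp_pos _).le hz1
        have h3 := large_bound T hT4
        have h4 : ∑ v ∈ R.image V, ∏ i, p i (v i) ≤ 2 / √T := by
          refine h1.trans (le_trans ?_ h3)
          have := mul_le_mul_of_nonneg_left h2 (Real.exp_pos (⌊T / 2⌋₊ : ℝ)).le
          linarith
        have h5 := hG1 (2 / √T) (by positivity) h4
        have h6 : log (2 / √T) = -((log T - log 4) / 2) := by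
          rw [Real.log_div (by norm_num) (by positivity), Real.log_sqrt hT1.le,
            show (4 : ℝ) = 2 ^ 2 by norm_num, Real.log_pow]
          push_cast
          ring
        rw [h6] at h5
        linarith
    have hnum := hgood T Φ hT1 hΦ1 hΦ2
    have h1 := mul_le_mul_of_nonneg_left hjen hτ0
    have h2 : τ * (R.card * (T * (log (k / T) - s))) ≤ R.card * Φ := by
      have h3 := mul_le_mul_of_nonneg_left hnum hRc.le
      linarith
    rw [hΦR] at h2
    linarith

end Pool.Agent.H87.PT
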