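import Mathlib
import Pool.Agent.H87.PW.Main
import Pool.Agent.H87.PT.Local

/-!
# The main induction for every admissible saving
-/

set_option autoImplicit false
set_option linter.unusedSectionVars false

namespace Pool.Agent.H87.PT

open Finset Real
open Pool.Agent.H87.FS (cls va)
open Pool.Agent.H87.LL
open Pool.Agent.H87.PW
open scoped Pointwise BigOperators

/-- Subadditivity of the entropy. -/
theorem subadd (k : ℕ) (R : Finset (Fin k → ℤ)) :
    (R.card : ℝ) * log R.card ≤ ∑ i, E1 R (fun r => r i) {0} := by
  classical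
  rcases R.eq_empty_or_nonempty with rfl | hR
  · simp only [Finset.card_empty, Nat.cast_zero, zero_mul]
    exact Finset.sum_nonneg fun i _ => E1_nonneg _ _ _ (Finset.singleton_nonempty _)
  have hRc : (0 : ℝ) < R.card := by exact_mod_cast hR.card_pos
  have hcnt : ∀ i, ∀ r ∈ R, (0 : ℝ) < (R.filter fun r' : Fin k → ℤ => r' i = r i).card := by
    intro i r hr
    have h : (R.filter fun r' : Fin k → ℤ => r' i = r i).Nonempty :=
      ⟨r, Finset.mem_filter.2 ⟨hr, rfl⟩⟩
    exact_mod_cast h.card_pos
  have h1 := gibbsV R hR (fun r : Fin k → ℤ => r)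
    (fun v => ∏ i, (((R.filter fun r' : Fin k → ℤ => r' i = v i).card : ℝ) / R.card))
    (fun r hr => Finset.prod_pos fun i _ => div_pos (hcnt i r hr) hRc) 1 one_pos (by
      calc ∑ v ∈ R.image (fun r : Fin k → ℤ => r),
            ∏ i, (((R.filter fun r' : Fin k → ℤ => r' i = v i).card : ℝ) / R.card)
          ≤ ∑ v ∈ Fintype.piFinset fun i => R.image fun r : Fin k → ℤ => r i,
            ∏ i, (((R.filter fun r' : Fin k → ℤ => r' i = v i).card : ℝ) / R.card) := by
            refine Finset.sum_le_sum_of_subset_of_nonneg ?_ fun v _ _ =>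
              Finset.prod_nonneg fun i _ => by positivity
            intro v hv
            obtain ⟨r, hr, rfl⟩ := Finset.mem_image.1 hv
            exact Fintype.mem_piFinset.2 fun i => Finset.mem_image_of_mem _ hr
        _ = ∏ i, ∑ a ∈ R.image (fun r : Fin k → ℤ => r i),
            (((R.filter fun r' : Fin k → ℤ => r' i = a).card : ℝ) / R.card) := by
            rw [Finset.prod_univ_sum (fun i => R.image fun r : Fin k → ℤ => r i)
              (fun i a => (((R.filter fun r' : Fin k → ℤ => r' i = a).card : ℝ) / R.card))]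
        _ = 1 := by
            refine Finset.prod_eq_one fun i _ => ?_
            rw [← Finset.sum_div, div_eq_one_iff_eq hRc.ne']
            exact_mod_cast (Finset.card_eq_sum_card_image (fun r : Fin k → ℤ => r i) R).symm)
  rw [Real.log_one, mul_zero, add_zero] at h1
  have h2 : ∀ r ∈ R, log R.card -
      log ((R.filter fun r' : Fin k → ℤ => r' = r).card : ℝ) = log R.card := by
    intro r hr
    have h3 : (R.filter fun r' : Fin k → ℤ => r' = r) = {r} := by
      ext r'
      simp only [Finset.mem_filter, Finset.mem_singleton]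
      constructor
      · rintro ⟨-, h⟩
        exact h
      · rintro rfl
        exact ⟨hr, rfl⟩
    rw [h3, Finset.card_singleton, Nat.cast_one, Real.log_one, sub_zero]
  rw [Finset.sum_congr rfl h2, Finset.sum_const, nsmul_eq_mul] at h1
  refine h1.trans (le_of_eq ?_)
  have h3 : ∀ r ∈ R, log (∏ i, (((R.filter fun r' : Fin k → ℤ => r' i = r i).card : ℝ) /
      R.card)) = ∑ i, (log ((R.filter fun r' : Fin k → ℤ => r' i = r i).card : ℝ) -
      log R.card) := by
    intro r hr
    rw [Real.log_prod fun i _ => (div_pos (hcnt i r hr) hRc).ne']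
    exact Finset.sum_congr rfl fun i _ => Real.log_div (hcnt i r hr).ne' hRc.ne'
  rw [Finset.sum_congr rfl h3, Finset.sum_comm, ← Finset.sum_neg_distrib]
  refine Finset.sum_congr rfl fun i _ => ?_
  rw [Finset.sum_sub_distrib, Finset.sum_const, nsmul_eq_mul]
  unfold E1
  rw [Lg_single, Finset.card_singleton, Nat.cast_one, div_one]
  ring

theorem mainPT (e : ℝ) (he : 0 < e) (he1 : e ≤ 1) (s : ℝ) (hs : 0 ≤ s) (k : ℕ) (hk : 1 ≤ k)
    (τ : ℝ) (hτ0 : 0 ≤ τ) (hτ1' : τ ≤ 1) (hgood : Good k s τ)
    (l : List ℕ) :
    (∀ q ∈ l, q.Prime) → ∀ (R : Finset (Fin k → ℤ)) (x : ℤ), (∀ r ∈ R, ∀ i, r i ≠ 0) →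
      (∀ r ∈ R, ∏ i, r i = x) →
      (∀ r ∈ R, ∀ r' ∈ R, (∀ q ∈ l, ∀ i, va q (r i) = va q (r' i)) →
        ∀ i, (r i).natAbs = (r' i).natAbs) →
      (R.card : ℝ) * log R.card ≤
        ∑ i, ((1 - τ) * E1 R (fun r => r i) {0} +
          τ * ((3 + s) * (Sf e R (fun r => r i) +
            (l.map (bq e)).sum * R.card))) + τ * k * log 2 * R.card := by
  classical
  have hk0 : (1 : ℝ) ≤ k := by exact_mod_cast hk
  have hkpos : (0 : ℝ) < k := by linarith
  have hτ1 : 0 ≤ 1 - τ := by linarith
  have h00 : ({0} : Finset ℤ).Nonempty := Finset.singleton_nonempty _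
  induction l with
  | nil =>
    intro _ R x hR0 hx hdet
    have hsub := mul_le_mul_of_nonneg_left (subadd k R) hτ1
    rw [Finset.mul_sum] at hsub
    have hnn : ∑ i : Fin k, (1 - τ) * E1 R (fun r => r i) {0} ≤
        ∑ i : Fin k, ((1 - τ) * E1 R (fun r => r i) {0} +
          τ * ((3 + s) * (Sf e R (fun r => r i) + (([] : List ℕ).map (bq e)).sum * R.card))) := by
      refine Finset.sum_le_sum fun i _ => ?_
      have h2 := Sf_nonneg e he R (fun r : Fin k → ℤ => r i)
      simp only [List.map_nil, List.sum_nil, zero_mul, add_zero]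
      have h4 := mul_nonneg hτ0 (mul_nonneg (show 0 ≤ 3 + s by linarith) h2)
      linarith
    have hlog : τ * ((R.card : ℝ) * log R.card) ≤ τ * k * log 2 * R.card := by
      rcases R.eq_empty_or_nonempty with rfl | hR
      · simp
      · obtain ⟨r₀, hr₀⟩ := hR
        have hRc : (0 : ℝ) < R.card := by exact_mod_cast Finset.card_pos.2 ⟨r₀, hr₀⟩
        have h1 : R ⊆ Fintype.piFinset fun i => ({r₀ i, -r₀ i} : Finset ℤ) := by
          intro r hr
          rw [Fintype.mem_piFinset]
          intro i
          have h2 := hdet r hr r₀ hr₀ (by simp) i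
          rcases Int.natAbs_eq_natAbs_iff.1 h2 with h3 | h3
          · simp [h3]
          · simp [h3]
        have h2 : (R.card : ℝ) ≤ 2 ^ k := by
          have h3 := Finset.card_le_card h1
          rw [Fintype.card_piFinset] at h3
          have h4 : ∏ i : Fin k, (({r₀ i, -r₀ i} : Finset ℤ)).card ≤ 2 ^ k := by
            calc ∏ i : Fin k, (({r₀ i, -r₀ i} : Finset ℤ)).card ≤ ∏ _i : Fin k, 2 :=
                  Finset.prod_le_prod' fun i _ => Finset.card_le_two
              _ = 2 ^ k := by simp
          exact_mod_cast h3.trans h4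
        have h3 : log R.card ≤ k * log 2 := by
          rw [← Real.log_pow]
          exact Real.log_le_log hRc h2
        have h4 := mul_le_mul_of_nonneg_left (mul_le_mul_of_nonneg_left h3 hRc.le) hτ0
        linarith
    linarith
  | cons q l ih =>
    intro hl R x hR0 hx hdet
    rcases R.eq_empty_or_nonempty with rfl | hR
    · simp only [Finset.card_empty, Nat.cast_zero, zero_mul, mul_zero, add_zero]
      refine Finset.sum_nonneg fun i _ => ?_
      have h1 := E1_nonneg (∅ : Finset (Fin k → ℤ)) (fun r : Fin k → ℤ => r i) {0} h00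
      have h2 := Sf_nonneg e he (∅ : Finset (Fin k → ℤ)) (fun r : Fin k → ℤ => r i)
      have h3 := mul_nonneg hτ1 h1
      have h4 := mul_nonneg hτ0 (mul_nonneg (show 0 ≤ 3 + s by linarith) h2)
      linarith
    have hRc : (0 : ℝ) < R.card := by exact_mod_cast hR.card_pos
    have hq : q.Prime := hl q (List.mem_cons_self ..)
    obtain ⟨V, hV⟩ : ∃ V : (Fin k → ℤ) → Fin k → ℕ, ∀ r i, V r i = va q (r i) :=
      ⟨fun r i => va q (r i), fun _ _ => rfl⟩
    obtain ⟨F, hVF⟩ : ∃ F : ℕ, ∀ r ∈ R, ∀ i, V r i < F := by
      refine ⟨(R.sup fun r => Finset.univ.sup fun i => V r i) + 1, ?_⟩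
      intro r hr i
      have h1 : V r i ≤ Finset.univ.sup fun i => V r i :=
        Finset.le_sup (f := fun i => V r i) (Finset.mem_univ i)
      have h2 : (Finset.univ.sup fun i => V r i) ≤
          R.sup fun r => Finset.univ.sup fun i => V r i :=
        Finset.le_sup (f := fun r : Fin k → ℤ => Finset.univ.sup fun i => V r i) hr
      omega
    have hVs : ∀ r ∈ R, ∑ i, V r i = va q x := by
      intro r hr
      rw [← hx r hr, ← va_prod k q r (hR0 r hr)]
      exact Finset.sum_congr rfl fun i _ => hV r i
    have hFpos : 0 < F := by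
      obtain ⟨r₀, hr₀⟩ := hR
      exact lt_of_le_of_lt (Nat.zero_le _) (hVF r₀ hr₀ ⟨0, hk⟩)
    obtain ⟨V', hV'⟩ : ∃ V' : (Fin k → ℤ) → Fin k → Fin F, ∀ r ∈ R, ∀ i,
        ((V' r i : Fin F) : ℕ) = V r i := by
      refine ⟨fun r i => if h : V r i < F then ⟨V r i, h⟩ else ⟨0, hFpos⟩, ?_⟩
      intro r hr i
      simp only [dif_pos (hVF r hr i)]
    have hloc := local_ineq k hk F R hR V' ((va q x : ℕ) : ℤ) (by
      intro r hr
      rw [← hVs r hr]
      push_cast
      exact Finset.sum_congr rfl fun i _ => by rw [hV' r hr i]) s hs τ hτ0 hgood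
    have hfilt : ∀ r ∈ R, (R.filter fun r' => V' r' = V' r) = R.filter fun r' => V r' = V r := by
      intro r hr
      refine Finset.filter_congr fun r' hr' => ?_
      constructor
      · intro h
        funext i
        rw [← hV' r hr i, ← hV' r' hr' i, h]
      · intro h
        funext i
        apply Fin.ext
        rw [hV' r hr i, hV' r' hr' i, h]
    have hloc2 : ∑ r ∈ R, (log R.card - log ((R.filter fun r' => V r' = V r).card : ℝ)) ≤
        ∑ i, ((1 - τ) * TH R (fun r => va q (r i)) F +
          τ * ((3 + s) * CC R (fun r => va q (r i)) F)) := by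
      refine le_trans (le_of_eq ?_) (hloc.trans (le_of_eq ?_))
      · exact Finset.sum_congr rfl fun r hr => by rw [hfilt r hr]
      · refine Finset.sum_congr rfl fun i _ => ?_
        rw [TH_congr R (fun r => (V' r i : ℕ)) (fun r => va q (r i)) F
            (fun r hr => by rw [hV' r hr i, hV]),
          CC_congr R (fun r => (V' r i : ℕ)) (fun r => va q (r i)) F
            (fun r hr => by rw [hV' r hr i, hV])]
    have hblock : ∀ i, _ := fun i => block e he he1 q hq (bq e q) (bq_spec e q) R
      (fun r : Fin k → ℤ => r i) (fun r hr => hR0 r hr i) F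
    obtain ⟨T, hT⟩ : ∃ T, T = R.image V := ⟨_, rfl⟩
    have hva : ∀ i, ∀ r ∈ R, va q (r i) < F := fun i r hr => by
      rw [← hV]
      exact hVF r hr i
    -- the partition
    have hpart : ∀ i, ∑ v ∈ T, Sf e (R.filter fun r => V r = v) (fun r => r i) ≤
        ∑ f ∈ Finset.range F, Sf e (R.filter fun r => va q (r i) = f) (fun r => r i) := by
      intro i
      rw [hT]
      exact part2 e he (fun r : Fin k → ℤ => r i) V (fun r => va q (r i)) (fun v => v i) R F
        (hva i) (fun r => (hV r i).symm)
    have hpartE : ∀ i, ∑ v ∈ T, E1 (R.filter fun r => V r = v) (fun r => r i) {0} ≤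
        ∑ f ∈ Finset.range F, E1 (R.filter fun r => va q (r i) = f) (fun r => r i) {0} := by
      intro i
      rw [hT]
      exact part3 (fun r : Fin k → ℤ => r i) {0} h00 V (fun r => va q (r i)) (fun v => v i) R F
        (hva i) (fun r => (hV r i).symm)
    have hcoord : ∀ i, CC R (fun r => va q (r i)) F +
        ∑ v ∈ T, Sf e (R.filter fun r => V r = v) (fun r => r i) ≤
        Sf e R (fun r => r i) + bq e q * R.card := by
      intro i
      have h1 := hblock i
      have h2 := hpart i
      have h3 := Sf_nonneg e he (R.filter fun r => F ≤ va q (r i)) (fun r : Fin k → ℤ => r i)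
      have h4 : 0 ≤ bq e q * ((R.filter fun r => F ≤ va q (r i)).card : ℝ) :=
        mul_nonneg (bq_nonneg e he he1 q) (Nat.cast_nonneg _)
      have h5 : CC R (fun r => va q (r i)) F = ∑ f ∈ Finset.range F,
          ((R.filter fun r => f ≤ va q (r i)).card : ℝ) *
          gf (((R.filter fun r => f + 1 ≤ va q (r i)).card : ℝ) /
            (R.filter fun r => f ≤ va q (r i)).card) := rfl
      rw [h5]
      linarith
    have hcoordE : ∀ i, TH R (fun r => va q (r i)) F +
        ∑ v ∈ T, E1 (R.filter fun r => V r = v) (fun r => r i) {0} ≤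
        E1 R (fun r => r i) {0} := by
      intro i
      have h1 := E1_chain R (fun r : Fin k → ℤ => r i) q F (hva i)
      have h2 := hpartE i
      linarith
    -- the induction hypothesis
    have hih : ∀ v ∈ T, ((R.filter fun r => V r = v).card : ℝ) *
        log (R.filter fun r => V r = v).card ≤
        ∑ i, ((1 - τ) * E1 (R.filter fun r => V r = v) (fun r => r i) {0} +
          τ * ((3 + s) * (Sf e (R.filter fun r => V r = v) (fun r => r i) +
            (l.map (bq e)).sum * (R.filter fun r => V r = v).card))) +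
          τ * k * log 2 * (R.filter fun r => V r = v).card := by
      intro v _
      refine ih (fun q' hq' => hl q' (List.mem_cons_of_mem _ hq')) _ x
        (fun r hr => hR0 r (Finset.mem_filter.1 hr).1)
        (fun r hr => hx r (Finset.mem_filter.1 hr).1) ?_
      intro r hr r' hr' hrr
      obtain ⟨h1, h2⟩ := Finset.mem_filter.1 hr
      obtain ⟨h3, h4⟩ := Finset.mem_filter.1 hr'
      refine hdet r h1 r' h3 ?_
      intro q' hq' i
      rcases List.mem_cons.1 hq' with h5 | h5
      · rw [h5]
        have := congrFun (h2.trans h4.symm) i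
        rwa [hV, hV] at this
      · exact hrr q' h5 i
    have hihs := Finset.sum_le_sum hih
    have hcardT : ∑ v ∈ T, ((R.filter fun r => V r = v).card : ℝ) = R.card := by
      rw [hT]
      exact_mod_cast (Finset.card_eq_sum_card_image V R).symm
    rw [Finset.sum_add_distrib, Finset.sum_comm, ← Finset.mul_sum, hcardT] at hihs
    have hsplit : ∑ r ∈ R, log ((R.filter fun r' => V r' = V r).card : ℝ) =
        ∑ v ∈ T, ((R.filter fun r => V r = v).card : ℝ) *
          log (R.filter fun r => V r = v).card := by
      have := Finset.sum_comp (s := R)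
        (fun v => log ((R.filter fun r' => V r' = v).card : ℝ)) V
      rw [this, hT]
      exact Finset.sum_congr rfl fun v _ => by rw [nsmul_eq_mul]
    rw [Finset.sum_sub_distrib, Finset.sum_const, nsmul_eq_mul, hsplit] at hloc2
    -- one coordinate
    have hone : ∀ i, ((1 - τ) * TH R (fun r => va q (r i)) F +
          τ * ((3 + s) * CC R (fun r => va q (r i)) F)) +
        ∑ v ∈ T, ((1 - τ) * E1 (R.filter fun r => V r = v) (fun r => r i) {0} +
          τ * ((3 + s) * (Sf e (R.filter fun r => V r = v) (fun r => r i) +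
            (l.map (bq e)).sum * (R.filter fun r => V r = v).card))) ≤
        (1 - τ) * E1 R (fun r => r i) {0} +
          τ * ((3 + s) * (Sf e R (fun r => r i) +
            (bq e q + (l.map (bq e)).sum) * R.card)) := by
      intro i
      have e1 : ∑ v ∈ T, ((1 - τ) * E1 (R.filter fun r => V r = v) (fun r => r i) {0} +
          τ * ((3 + s) * (Sf e (R.filter fun r => V r = v) (fun r => r i) +
            (l.map (bq e)).sum * (R.filter fun r => V r = v).card))) =
          (1 - τ) * ∑ v ∈ T, E1 (R.filter fun r => V r = v) (fun r => r i) {0} +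
          τ * ((3 + s) * (∑ v ∈ T, Sf e (R.filter fun r => V r = v) (fun r => r i) +
            (l.map (bq e)).sum * R.card)) := by
        rw [Finset.sum_add_distrib, ← Finset.mul_sum, ← Finset.mul_sum, ← Finset.mul_sum,
          Finset.sum_add_distrib, ← Finset.mul_sum, hcardT]
      rw [e1]
      have h1 := mul_le_mul_of_nonneg_left (hcoordE i) hτ1
      have h2 := mul_le_mul_of_nonneg_left (hcoord i)
        (mul_nonneg hτ0 (show 0 ≤ 3 + s by linarith))
      nlinarith
    have hones := Finset.sum_le_sum fun i (_ : i ∈ (Finset.univ : Finset (Fin k))) => hone i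
    rw [Finset.sum_add_distrib] at hones
    simp only [List.map_cons, List.sum_cons]
    linarith

end Pool.Agent.H87.PT
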