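import Mathlib
import Pool.Agent.H87.PW.Point
import Pool.Agent.H87.PT.Main
import Pool.Agent.H87.LL.Energy

/-!
# The pointwise bound and the growth of product sets
-/

set_option autoImplicit false
set_option linter.unusedSectionVars false

namespace Pool.Agent.H87.PT

open Finset Real
open Pool.Agent.H87.LL
open Pool.Agent.H87.PW (BB BB_nonneg)
open scoped Pointwise BigOperators

theorem BB_le (e : ℝ) (he : 0 < e) (he1 : e ≤ 1) : BB e + 1 ≤ Real.exp (10 ^ 9 / e) := by
  obtain ⟨y, hy⟩ : ∃ y, y = 1 / e := ⟨_, rfl⟩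
  have hy1 : 1 ≤ y := by
    rw [hy, le_div_iff₀ he]
    linarith
  have e1 : (10 : ℝ) ^ 9 / e = 10 ^ 9 * y := by rw [hy]; ring
  have e2 : 2 / e = 2 * y := by rw [hy]; ring
  have e3 : 200 / e = 200 * y := by rw [hy]; ring
  unfold BB
  rw [e1, e2, e3]
  obtain ⟨E, hE⟩ : ∃ E, E = Real.exp (3 * 10 ^ 8 * y) := ⟨_, rfl⟩
  have hE1 : 1 ≤ E := by
    rw [hE]
    exact Real.one_le_exp (by positivity)
  have h1 : Real.exp (10 ^ 8 * (2 * y + 1)) ≤ E := by
    rw [hE, Real.exp_le_exp]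
    nlinarith
  have h2 : log (200 * y) ≤ 200 * y := by
    have := Real.log_le_sub_one_of_pos (show 0 < 200 * y by positivity)
    linarith
  have h3 : 0 ≤ log (200 * y) := Real.log_nonneg (by linarith)
  have h4 : (2 * Real.exp (10 ^ 8 * (2 * y + 1)) + 1) * log (200 * y) ≤ (3 * E) * (200 * y) :=
    mul_le_mul (by linarith) h2 h3 (by positivity)
  have h5 : 601 * y ≤ Real.exp (7 * 10 ^ 8 * y) := by
    have := Real.add_one_le_exp (7 * 10 ^ 8 * y)
    nlinarith
  have h6 : Real.exp (10 ^ 9 * y) = E * Real.exp (7 * 10 ^ 8 * y) := by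
    rw [hE, ← Real.exp_add]
    congr 1
    ring
  rw [h6]
  have h7 : E * (601 * y) ≤ E * Real.exp (7 * 10 ^ 8 * y) :=
    mul_le_mul_of_nonneg_left h5 (by linarith)
  nlinarith

/-- The logarithm of the loss. -/
noncomputable def WL (e : ℝ) (A P Q : Finset ℤ) : ℝ :=
  16 * (log ((A + P).card : ℝ) - log (P.card : ℝ)) +
    (2000 * D2 P Q + e * log (P.card : ℝ)) + Real.exp (10 ^ 9 / e)

/-- The loss. -/
noncomputable def WW (e : ℝ) (A P Q : Finset ℤ) : ℝ :=
  Real.exp (Real.exp (10 ^ 9 / e)) * (P.card : ℝ) ^ e *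
    (((A + P).card : ℝ) / P.card) ^ 16 *
    (((P + Q).card : ℝ) / √((P.card : ℝ) * Q.card)) ^ 2000

theorem WW_eq (e : ℝ) (A P Q : Finset ℤ) (hA : A.Nonempty) (hP : P.Nonempty) (hQ : Q.Nonempty) :
    WW e A P Q = Real.exp (WL e A P Q) := by
  have p1 : (0 : ℝ) < P.card := by exact_mod_cast hP.card_pos
  have p2 : (0 : ℝ) < Q.card := by exact_mod_cast hQ.card_pos
  have p3 : (0 : ℝ) < (A + P).card := by exact_mod_cast (hA.add hP).card_pos
  have p4 : (0 : ℝ) < (P + Q).card := by exact_mod_cast (hP.add hQ).card_pos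
  have e1 : (((A + P).card : ℝ) / P.card) ^ 16 =
      Real.exp (16 * (log ((A + P).card : ℝ) - log (P.card : ℝ))) := by
    have h1 := Real.exp_nat_mul (log ((A + P).card : ℝ) - log (P.card : ℝ)) 16
    push_cast at h1
    rw [h1, Real.exp_sub, Real.exp_log p3, Real.exp_log p1]
  have e2 : (((P + Q).card : ℝ) / √((P.card : ℝ) * Q.card)) ^ 2000 =
      Real.exp (2000 * D2 P Q) := by
    have h1 := Real.exp_nat_mul (D2 P Q) 2000
    push_cast at h1
    rw [h1]
    congr 1
    rw [← Real.exp_log (show (0 : ℝ) < ((P + Q).card : ℝ) / √((P.card : ℝ) * Q.card) by positivity),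
      Real.log_div p4.ne' (by positivity), Real.log_sqrt (by positivity),
      Real.log_mul p1.ne' p2.ne']
    congr 1
    unfold D2
    ring
  unfold WW WL
  rw [e1, e2, Real.rpow_def_of_pos p1, ← Real.exp_add, ← Real.exp_add, ← Real.exp_add]
  congr 1
  ring

theorem point_log (e : ℝ) (he : 0 < e) (he1 : e ≤ 1) (s : ℝ) (hs : 0 ≤ s) (k : ℕ) (hk : 1 ≤ k)
    (τ : ℝ) (hτ0 : 0 ≤ τ) (hτ1' : τ ≤ 1) (hgood : Good k s τ)
    (A P Q : Fin k → Finset ℤ) (hP : ∀ i, (P i).Nonempty) (hQ : ∀ i, (Q i).Nonempty)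
    (x : ℤ) (hx : x ≠ 0) (hne : (Fac A x).Nonempty) :
    log (Fac A x).card ≤ ∑ i, ((1 - τ) * log ((A i).card : ℝ) +
      τ * ((3 + s) * WL e (A i) (P i) (Q i))) := by
  have hk0 : (1 : ℝ) ≤ k := by exact_mod_cast hk
  have hτ1 : 0 ≤ 1 - τ := by linarith
  set R := Fac A x with hR
  have hRc : (0 : ℝ) < R.card := by exact_mod_cast hne.card_pos
  have hmem : ∀ r ∈ R, (∀ i, r i ∈ A i) ∧ ∏ i, r i = x := by
    intro r hr
    obtain ⟨h1, h2⟩ := Finset.mem_filter.1 hr
    exact ⟨Fintype.mem_piFinset.1 h1, h2⟩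
  have hdvd : ∀ r ∈ R, ∀ i, r i ∣ x := by
    intro r hr i
    rw [← (hmem r hr).2]
    exact Finset.dvd_prod_of_mem r (Finset.mem_univ i)
  have hmain := mainPT e he he1 s hs k hk τ hτ0 hτ1' hgood x.natAbs.primeFactors.toList
    (fun q hq => Nat.prime_of_mem_primeFactors (Finset.mem_toList.1 hq)) R x
    (fun r hr i h0 => hx (by
      have := hdvd r hr i
      rw [h0, zero_dvd_iff] at this
      exact this))
    (fun r hr => (hmem r hr).2)
    (fun r hr r' hr' h i => natAbs_eq_of_va (r i) (r' i) x hx (hdvd r hr i) (hdvd r' hr' i)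
      (fun q hq => h q (Finset.mem_toList.2 hq) i))
  rw [Finset.sum_map_toList] at hmain
  have hsum : ∑ q ∈ x.natAbs.primeFactors, bq e q ≤ BB e :=
    sum_bq e he he1 x.natAbs.primeFactors
  have hBB := BB_le e he he1
  have hl2 : log 2 ≤ 1 := by
    have := Real.log_two_lt_d9
    linarith
  have hone : ∀ i, (1 - τ) * E1 R (fun r => r i) {0} + τ * ((3 + s) *
      (Sf e R (fun r => r i) + (∑ q ∈ x.natAbs.primeFactors, bq e q) * R.card)) +
      τ * log 2 * R.card ≤
      R.card * ((1 - τ) * log ((A i).card : ℝ) + τ * ((3 + s) * WL e (A i) (P i) (Q i))) := by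
    intro i
    have h1 := Sf_le e he R (fun r : Fin k → ℤ => r i) (P i) (Q i) (hP i) (hQ i)
    have h2 := E1_le R (fun r : Fin k → ℤ => r i) (P i) (A i + P i) (hP i)
      (fun r hr p hp => Finset.add_mem_add ((hmem r hr).1 i) hp)
    have h3 := E1_le R (fun r : Fin k → ℤ => r i) {0} (A i) (Finset.singleton_nonempty _)
      (fun r hr p hp => by
        rw [Finset.mem_singleton.1 hp, add_zero]
        exact (hmem r hr).1 i)
    rw [Finset.card_singleton, Nat.cast_one, Real.log_one, sub_zero] at h3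
    unfold psi at h1
    have h4 : Sf e R (fun r => r i) + (∑ q ∈ x.natAbs.primeFactors, bq e q) * R.card +
        R.card ≤ R.card * WL e (A i) (P i) (Q i) := by
      have h5 := mul_le_mul_of_nonneg_right (show ∑ q ∈ x.natAbs.primeFactors, bq e q + 1 ≤
        Real.exp (10 ^ 9 / e) by linarith) hRc.le
      unfold WL
      linarith
    have h5 := mul_le_mul_of_nonneg_left h3 hτ1
    have h6 := mul_le_mul_of_nonneg_left h4 (mul_nonneg hτ0 (show 0 ≤ 3 + s by linarith))
    have h7 : τ * log 2 * R.card ≤ τ * ((3 + s) * R.card) := by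
      rw [mul_assoc]
      refine mul_le_mul_of_nonneg_left ?_ hτ0
      exact mul_le_mul_of_nonneg_right (by linarith) hRc.le
    nlinarith
  have hones := Finset.sum_le_sum fun i (_ : i ∈ (Finset.univ : Finset (Fin k))) => hone i
  rw [← Finset.mul_sum, Finset.sum_add_distrib, Finset.sum_const, Finset.card_univ,
    Fintype.card_fin, nsmul_eq_mul] at hones
  have hfin : (R.card : ℝ) * log R.card ≤ R.card * (∑ i, ((1 - τ) * log ((A i).card : ℝ) +
      τ * ((3 + s) * WL e (A i) (P i) (Q i)))) := by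
    have e1 : (k : ℝ) * (τ * log 2 * R.card) = τ * k * log 2 * R.card := by ring
    rw [e1] at hones
    linarith
  exact le_of_mul_le_mul_left hfin hRc

/-- **The pointwise bound.** -/
theorem point (k : ℕ) (hk : 1 ≤ k) (e : ℝ) (he : 0 < e) (he1 : e ≤ 1) (t : ℝ) (ht : 1 ≤ t)
    (htk : t ≤ 16 * k)
    (A P Q : Fin k → Finset ℤ) (hP : ∀ i, (P i).Nonempty) (hQ : ∀ i, (Q i).Nonempty)
    (x : ℤ) (hx : x ≠ 0) :
    ((Fac A x).card : ℝ) ≤ ∏ i, (((A i).card : ℝ) ^ (1 - tau k t) *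
      WW e (A i) (P i) (Q i) ^ ((3 + log t) * tau k t)) := by
  have hk0 : (0 : ℝ) < k := by exact_mod_cast hk
  have ht0 : 0 < t := by linarith
  rcases (Fac A x).eq_empty_or_nonempty with h0 | hne
  · rw [h0, Finset.card_empty, Nat.cast_zero]
    unfold WW
    positivity
  have hRc : (0 : ℝ) < (Fac A x).card := by exact_mod_cast hne.card_pos
  have hlog := point_log e he he1 (log t) (Real.log_nonneg ht) k hk (tau k t)
    (tau_nonneg k t hk0 ht0 htk) (tau_le_one k t hk0 ht0) (good_t k t hk0 ht0 htk)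
    A P Q hP hQ x hx hne
  obtain ⟨r, hr⟩ := hne
  have hAne : ∀ i, (A i).Nonempty := fun i =>
    ⟨r i, Fintype.mem_piFinset.1 (Finset.mem_filter.1 hr).1 i⟩
  have h2 : ∀ i, ((A i).card : ℝ) ^ (1 - tau k t) *
      WW e (A i) (P i) (Q i) ^ ((3 + log t) * tau k t) =
      Real.exp ((1 - tau k t) * log ((A i).card : ℝ) +
      tau k t * ((3 + log t) * WL e (A i) (P i) (Q i))) := by
    intro i
    have p0 : (0 : ℝ) < (A i).card := by exact_mod_cast (hAne i).card_pos
    rw [WW_eq e (A i) (P i) (Q i) (hAne i) (hP i) (hQ i), Real.rpow_def_of_pos p0,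
      ← Real.exp_mul, ← Real.exp_add]
    congr 1
    ring
  rw [Finset.prod_congr rfl (fun i _ => h2 i), ← Real.exp_sum,
    ← Real.exp_log hRc, Real.exp_le_exp]
  exact hlog

/-- **Growth of product sets**, uniform in the number of factors. -/
theorem growth (k : ℕ) (hk : 1 ≤ k) (e : ℝ) (he : 0 < e) (he1 : e ≤ 1) (t : ℝ) (ht : 1 ≤ t)
    (htk : t ≤ 16 * k)
    (A P Q : Fin k → Finset ℤ) (hA : ∀ i, (A i).Nonempty) (h0 : ∀ i, (0 : ℤ) ∉ A i)
    (hP : ∀ i, (P i).Nonempty) (hQ : ∀ i, (Q i).Nonempty) :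
    ∏ i, (((A i).card : ℝ) / WW e (A i) (P i) (Q i) ^ (3 + log t)) ^ tau k t ≤
      ((∏ i, A i).card : ℝ) := by
  have hk0 : (0 : ℝ) < k := by exact_mod_cast hk
  have ht0 : 0 < t := by linarith
  have p0 : ∀ i, (0 : ℝ) < (A i).card := fun i => by exact_mod_cast (hA i).card_pos
  have pW : ∀ i, 0 < WW e (A i) (P i) (Q i) := fun i => by
    rw [WW_eq e (A i) (P i) (Q i) (hA i) (hP i) (hQ i)]
    exact Real.exp_pos _
  have h1 := fac_prod k A h0 _ (fun x hx => point k hk e he he1 t ht htk A P Q hP hQ x hx)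
  have h2 : ∀ i, ((A i).card : ℝ) =
      (((A i).card : ℝ) / WW e (A i) (P i) (Q i) ^ (3 + log t)) ^ tau k t *
      (((A i).card : ℝ) ^ (1 - tau k t) *
        WW e (A i) (P i) (Q i) ^ ((3 + log t) * tau k t)) := by
    intro i
    have hW := Real.rpow_pos_of_pos (pW i) (3 + log t)
    rw [Real.div_rpow (p0 i).le hW.le, ← Real.rpow_mul (pW i).le, mul_comm (3 + log t) (tau k t),
      div_mul_eq_mul_div, mul_div_assoc, mul_div_assoc,
      div_self (Real.rpow_pos_of_pos (pW i) _).ne', mul_one, ← Real.rpow_add (p0 i)]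
    have : tau k t + (1 - tau k t) = 1 := by ring
    rw [this, Real.rpow_one]
  have h3 : ∏ i, ((A i).card : ℝ) =
      (∏ i, (((A i).card : ℝ) / WW e (A i) (P i) (Q i) ^ (3 + log t)) ^ tau k t) *
      ∏ i, (((A i).card : ℝ) ^ (1 - tau k t) *
        WW e (A i) (P i) (Q i) ^ ((3 + log t) * tau k t)) := by
    rw [← Finset.prod_mul_distrib]
    exact Finset.prod_congr rfl fun i _ => h2 i
  rw [h3] at h1
  refine le_of_mul_le_mul_right h1 (Finset.prod_pos fun i _ => ?_)
  exact mul_pos (Real.rpow_pos_of_pos (p0 i) _) (Real.rpow_pos_of_pos (pW i) _)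

end Pool.Agent.H87.PT
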