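import Mathlib
import Pool.Agent.H87.PW.Dec0
import Pool.Agent.H87.PT.Point

/-!
# Factorisations with all factors in a union of structured pieces
-/

set_option autoImplicit false
set_option linter.unusedSectionVars false

namespace Pool.Agent.H87.PT

open Finset Real
open Pool.Agent.H87.LL
open Pool.Agent.H87.PW (fac_union')
open scoped Pointwise BigOperators

/-- The error of a piece. -/
theorem hbdaux (w δ e M ℓ β τ x1 x2 x3 y : ℝ) (hw : 0 ≤ w) (he : 0 ≤ e)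
    (hβ : 0 ≤ β) (hτ0 : 0 ≤ τ) (hτ1 : τ ≤ 1)
    (h1 : x1 ≤ 21 * δ * ℓ) (h2 : x2 ≤ 21 * δ * ℓ) (h3 : x3 ≤ M * ℓ) :
    (1 - τ) * y + τ * (w * (16 * x1 + (2000 * x2 + e * x3) + β)) ≤
      (1 - τ) * y + w * β + τ * (w * ((42336 * δ + e * M) * ℓ)) := by
  have a4 : e * x3 ≤ e * (M * ℓ) := mul_le_mul_of_nonneg_left h3 he
  have b1 : 16 * x1 + (2000 * x2 + e * x3) + β ≤
      (42336 * δ + e * M) * ℓ + β := by
    linarith
  have b2 := mul_le_mul_of_nonneg_left b1 hw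
  rw [mul_add w] at b2
  have a7 := mul_le_mul_of_nonneg_left b2 hτ0
  have a8 : τ * (w * β) ≤ 1 * (w * β) := mul_le_mul_of_nonneg_right hτ1 (mul_nonneg hw hβ)
  rw [mul_add τ] at a7
  linarith

/-- Factorisations with all factors in a union of pieces. -/
theorem facPT (t : ℝ) (ht : 1 ≤ t) (δ e : ℝ) (M : ℕ) (hδ : 0 < δ)
    (he0 : 0 < e) (he1 : e ≤ 1) (A C : Finset ℤ)
    (ℓ : ℝ) (hℓ : ℓ = Real.log A.card) (hℓ1 : 1 ≤ ℓ) (𝒟 : Finset (Finset ℤ))
    (h𝒟1 : ∀ D ∈ 𝒟, Piece (Real.exp (21 * δ * ℓ)) ((A.card : ℝ) ^ M) D ∧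
      Real.exp ((1 - 6 * δ) * ℓ) ≤ D.card)
    (h𝒟2 : C ⊆ 𝒟.biUnion id) (h𝒟3 : ∑ D ∈ 𝒟, D.card ≤ A.card)
    (k : ℕ) (hk : 1 ≤ k) (htk : t ≤ 16 * k) (u : ℤ) (hu : u ≠ 0) :
    ((Fac (fun _ : Fin k => C) u).card : ℝ) ≤
      Real.exp (k * ((3 + log t) * Real.exp (10 ^ 9 / e))) *
        (A.card : ℝ) ^ (k - k * tau k t +
          k * tau k t * ((3 + log t) * (42338 * δ + e * M))) := by
  classical
  have hlt : 0 ≤ log t := Real.log_nonneg ht
  have ht0 : 0 < t := by linarith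
  have cA : (1 : ℝ) ≤ A.card := by
    have h0 : A.card ≠ 0 := by
      intro h
      rw [hℓ, h] at hℓ1
      simp at hℓ1
      linarith
    exact_mod_cast Nat.one_le_iff_ne_zero.2 h0
  have cA0 : (0 : ℝ) < A.card := by linarith
  have hpow : ∀ x : ℝ, (A.card : ℝ) ^ x = Real.exp (x * ℓ) := fun x => by
    rw [Real.rpow_def_of_pos cA0, hℓ]; congr 1; ring
  have hk0 : (1 : ℝ) ≤ k := by exact_mod_cast hk
  have hkp : (0 : ℝ) < k := by linarith
  obtain ⟨w, hw⟩ : ∃ w, w = 3 + log t := ⟨_, rfl⟩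
  have hw3 : 3 ≤ w := by rw [hw]; linarith
  rw [← hw]
  obtain ⟨τ, hτ⟩ : ∃ τ, τ = tau k t := ⟨_, rfl⟩
  have hτ0 : 0 ≤ τ := by rw [hτ]; exact tau_nonneg k t hkp ht0 htk
  have hτ1 : τ ≤ 1 := by rw [hτ]; exact tau_le_one k t hkp ht0
  have hgood : Good k (log t) τ := by rw [hτ]; exact good_t k t hkp ht0 htk
  rw [← hτ]
  obtain ⟨β, hβ⟩ : ∃ β, β = Real.exp (10 ^ 9 / e) := ⟨_, rfl⟩
  have hβ0 : 0 ≤ β := by rw [hβ]; positivity
  rw [← hβ]
  obtain ⟨ν, hν⟩ : ∃ ν, ν = w * (42336 * δ + e * M) := ⟨_, rfl⟩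
  obtain ⟨Y, hY⟩ : ∃ Y : ℝ, Y = Real.exp (k * (w * β) + k * (τ * (ν * ℓ))) := ⟨_, rfl⟩
  have hpieces : ∀ Δ : Fin k → Finset ℤ, (∀ i, Δ i ∈ 𝒟) →
      ((Fac Δ u).card : ℝ) ≤ Y * ∏ i, ((Δ i).card : ℝ) ^ (1 - τ) := by
    intro Δ hΔ
    rcases (Fac Δ u).eq_empty_or_nonempty with h0 | hne
    · rw [h0, Finset.card_empty, Nat.cast_zero, hY]
      positivity
    have hRc : (0 : ℝ) < (Fac Δ u).card := by exact_mod_cast hne.card_pos
    have hP := fun i => (h𝒟1 (Δ i) (hΔ i)).1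
    choose P hPne hPs1 hPs2 hPc using hP
    have hΔne : ∀ i, (Δ i).Nonempty := fun i => by
      rw [← Finset.card_pos]
      have : (0 : ℝ) < (Δ i).card := lt_of_lt_of_le (Real.exp_pos _) (h𝒟1 (Δ i) (hΔ i)).2
      exact_mod_cast this
    have hlog := point_log e he0 he1 (log t) hlt k hk τ hτ0 hτ1 hgood
      Δ (fun i => -(P i)) P (fun i => (hPne i).neg) hPne u hu hne
    unfold WL at hlog
    rw [← hβ, ← hw] at hlog
    have hbd : ∀ i : Fin k, (1 - τ) * log ((Δ i).card : ℝ) +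
        τ * (w * (16 * (log ((Δ i + -P i).card : ℝ) -
        log ((-P i).card : ℝ)) + (2000 * D2 (-P i) (P i) + e * log ((-P i).card : ℝ)) +
        β)) ≤ (1 - τ) * log ((Δ i).card : ℝ) + w * β + τ * (ν * ℓ) := by
      intro i
      have cP : (1 : ℝ) ≤ (P i).card := by exact_mod_cast (hPne i).card_pos
      have cP0 : (0 : ℝ) < (P i).card := by linarith
      have cS1 : (0 : ℝ) < (Δ i + -P i).card := by
        exact_mod_cast ((hΔne i).add (hPne i).neg).card_pos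
      have cS2 : (0 : ℝ) < (-P i + P i).card := by
        exact_mod_cast ((hPne i).neg.add (hPne i)).card_pos
      have a1 : log ((Δ i + -P i).card : ℝ) - log ((-P i).card : ℝ) ≤ 21 * δ * ℓ := by
        have h1 := Real.log_le_log cS1 ((hPs1 i))
        rw [Real.log_mul (Real.exp_pos _).ne' cP0.ne', Real.log_exp] at h1
        rw [Finset.card_neg]
        linarith
      have a2 : D2 (-P i) (P i) ≤ 21 * δ * ℓ := by
        have h1 := Real.log_le_log cS2 ((hPs2 i))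
        rw [Real.log_mul (Real.exp_pos _).ne' cP0.ne', Real.log_exp] at h1
        unfold D2
        rw [Finset.card_neg]
        linarith
      have a3 : log ((-P i).card : ℝ) ≤ M * ℓ := by
        rw [Finset.card_neg]
        have h1 := Real.log_le_log cP0 (hPc i)
        rwa [Real.log_pow, ← hℓ] at h1
      rw [hν, mul_assoc w]
      exact hbdaux w δ e M ℓ β τ _ _ _ _ (by linarith) he0.le
        hβ0 hτ0 hτ1 a1 a2 a3
    have hsumbd := hlog.trans (Finset.sum_le_sum fun i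
      (_ : i ∈ (Finset.univ : Finset (Fin k))) => hbd i)
    rw [Finset.sum_add_distrib, Finset.sum_add_distrib, Finset.sum_const, Finset.sum_const,
      Finset.card_univ, Fintype.card_fin, nsmul_eq_mul, nsmul_eq_mul] at hsumbd
    have h2 : ∀ i, ((Δ i).card : ℝ) ^ (1 - τ) =
        Real.exp ((1 - τ) * log ((Δ i).card : ℝ)) := by
      intro i
      have p0 : (0 : ℝ) < (Δ i).card := by exact_mod_cast (hΔne i).card_pos
      rw [Real.rpow_def_of_pos p0]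
      congr 1
      ring
    rw [Finset.prod_congr rfl fun i _ => h2 i, ← Real.exp_sum, hY, ← Real.exp_add,
      ← Real.exp_log hRc, Real.exp_le_exp]
    linarith
  have h1 := fac_union' k C 𝒟 h𝒟2 u Y (fun D => (D.card : ℝ) ^ (1 - τ)) hpieces
  refine h1.trans ?_
  -- the sum over the pieces
  have hsumD : ∑ D ∈ 𝒟, (D.card : ℝ) ^ (1 - τ) ≤
      Real.exp ((1 - τ * (1 - 6 * δ)) * ℓ) := by
    have h2 : ∀ D ∈ 𝒟, (D.card : ℝ) ^ (1 - τ) ≤
        (D.card : ℝ) * Real.exp (-(τ * (1 - 6 * δ)) * ℓ) := by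
      intro D hD
      have h3 : Real.exp ((1 - 6 * δ) * ℓ) ≤ D.card := (h𝒟1 D hD).2
      have h4 : (0 : ℝ) < D.card := lt_of_lt_of_le (Real.exp_pos _) h3
      have h5 : (D.card : ℝ) ^ (-τ) ≤ Real.exp (-(τ * (1 - 6 * δ)) * ℓ) := by
        rw [Real.rpow_def_of_pos h4, Real.exp_le_exp]
        have h6 : (1 - 6 * δ) * ℓ ≤ log D.card := by
          rwa [Real.le_log_iff_exp_le h4]
        have h7 := mul_le_mul_of_nonneg_left h6 hτ0
        linarith
      calc (D.card : ℝ) ^ (1 - τ) = (D.card : ℝ) * (D.card : ℝ) ^ (-τ) := by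
            rw [sub_eq_add_neg, Real.rpow_add h4, Real.rpow_one]
        _ ≤ _ := mul_le_mul_of_nonneg_left h5 h4.le
    refine (Finset.sum_le_sum h2).trans ?_
    rw [← Finset.sum_mul]
    have h3 : ∑ D ∈ 𝒟, (D.card : ℝ) ≤ Real.exp ℓ := by
      rw [hℓ, Real.exp_log cA0]
      exact_mod_cast h𝒟3
    calc (∑ D ∈ 𝒟, (D.card : ℝ)) * Real.exp (-(τ * (1 - 6 * δ)) * ℓ) ≤
          Real.exp ℓ * Real.exp (-(τ * (1 - 6 * δ)) * ℓ) :=
          mul_le_mul_of_nonneg_right h3 (Real.exp_pos _).le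
      _ = Real.exp ((1 - τ * (1 - 6 * δ)) * ℓ) := by
          rw [← Real.exp_add]; congr 1; ring
  have hsumnn : 0 ≤ ∑ D ∈ 𝒟, (D.card : ℝ) ^ (1 - τ) :=
    Finset.sum_nonneg fun D _ => Real.rpow_nonneg (Nat.cast_nonneg _) _
  have h2 := pow_le_pow_left₀ hsumnn hsumD k
  have hY0 : 0 < Y := by rw [hY]; exact Real.exp_pos _
  refine (mul_le_mul_of_nonneg_left h2 hY0.le).trans ?_
  rw [← Real.exp_nat_mul, hY, ← Real.exp_add, hpow, ← Real.exp_add, Real.exp_le_exp]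
  have h4 : (k : ℝ) * (τ * (ν * ℓ)) + k * ((1 - τ * (1 - 6 * δ)) * ℓ) ≤
      (k - k * τ + k * τ * (w * (42338 * δ + e * M))) * ℓ := by
    have e1 : (k : ℝ) * (τ * (ν * ℓ)) + k * ((1 - τ * (1 - 6 * δ)) * ℓ) =
        (k - k * τ + k * τ * (w * (42336 * δ + e * M) + 6 * δ)) * ℓ := by
      rw [hν]
      ring
    rw [e1]
    refine mul_le_mul_of_nonneg_right ?_ (by linarith)
    have h5 : w * (42336 * δ + e * M) + 6 * δ ≤ w * (42338 * δ + e * M) := by nlinarith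
    have h6 := mul_le_mul_of_nonneg_left h5 (show 0 ≤ k * τ by positivity)
    linarith
  linarith

end Pool.Agent.H87.PT
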