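import Mathlib
import Pool.Agent.H87.PW.Dec1
import Pool.Agent.H87.PT.Dec2

/-!
# The decomposition, for all values of the parameter at once
-/

set_option autoImplicit false
set_option linter.unusedSectionVars false

namespace Pool.Agent.H87.PT

open Finset Real
open Pool.Agent.H87.LL
open Pool.Agent.H87.PW (extractPW)
open scoped Pointwise BigOperators
open Pool.Agent.Y359.LE (En En_young' En_le)

/-- **The decomposition.** -/
theorem decG (J : ℕ) (δ : ℝ) (hδ : 0 < δ) :
    ∃ C : ℕ → ℝ → ℝ → ℝ, (∀ k ε t, 0 < C k ε t) ∧ ∀ A : Finset ℤ, ∃ B ⊆ A,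
      (∀ j ≤ J, ∀ m : ℕ, 2 ^ j ≤ m →
        (En B m : ℝ) ≤ (A.card : ℝ) ^ (2 * (m : ℝ) - 1 - j * δ)) ∧
      ∀ k : ℕ, 1 ≤ k → ∀ ε : ℝ, 0 < ε → ε ≤ 1 → ∀ t : ℝ, 1 ≤ t → t ≤ 16 * k → ∀ u : ℤ, u ≠ 0 →
        ((Fac (fun _ : Fin k => A \ B) u).card : ℝ) ≤
          C k ε t * (A.card : ℝ) ^ (k - k * tau k t + ε +
            50000 * (3 + log t) * δ * (k * tau k t)) := by
  classical
  obtain ⟨t₀, ht₀, hext⟩ := extractPW J δ hδ
  obtain ⟨M, hM⟩ : ∃ M : ℕ, M = 2 ^ J := ⟨_, rfl⟩
  have hM1 : 1 ≤ M := by rw [hM]; exact Nat.one_le_two_pow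
  have hMr : (1 : ℝ) ≤ M := by exact_mod_cast hM1
  refine ⟨fun k ε t => Real.exp (k * t₀ + k * ((3 + log t) *
    Real.exp (10 ^ 9 / (ε / (k * (3 + log t) * M))))), fun k ε t => Real.exp_pos _, ?_⟩
  intro A
  by_cases hsmall : Real.log A.card < t₀
  · -- small sets
    refine ⟨∅, Finset.empty_subset _, ?_, ?_⟩
    · intro j _ m hm
      have hm1 : 1 ≤ m := Nat.one_le_two_pow.trans hm
      have h1 : En ∅ m ≤ 0 := by
        refine (En_le ∅ m).trans ?_
        have : 2 * m ≠ 0 := by omega
        simp [this]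
      have h2 : (En ∅ m : ℝ) ≤ 0 := by exact_mod_cast h1
      exact h2.trans (Real.rpow_nonneg (Nat.cast_nonneg _) _)
    · intro k hk ε hε hε1 t ht htk u _
      rw [Finset.sdiff_empty]
      have hlt : 0 ≤ log t := Real.log_nonneg ht
      have hk0 : (1 : ℝ) ≤ k := by exact_mod_cast hk
      rcases A.eq_empty_or_nonempty with h0 | hA
      · have h1 : Fac (fun _ : Fin k => A) u = ∅ := by
          rw [Finset.eq_empty_iff_forall_notMem]
          intro f hf
          have := Fintype.mem_piFinset.1 (Finset.mem_filter.1 hf).1 ⟨0, hk⟩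
          rw [h0] at this
          exact absurd this (Finset.notMem_empty _)
        rw [h1]
        simp only [Finset.card_empty, Nat.cast_zero]
        positivity
      · have cA : (1 : ℝ) ≤ A.card := by exact_mod_cast hA.card_pos
        have h1 : ((Fac (fun _ : Fin k => A) u).card : ℝ) ≤ (A.card : ℝ) ^ k := by
          have h2 : (Fac (fun _ : Fin k => A) u).card ≤ A.card ^ k := by
            unfold Fac
            refine (Finset.card_filter_le _ _).trans ?_
            rw [Fintype.card_piFinset]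
            simp
          exact_mod_cast h2
        have h2 : (A.card : ℝ) ^ k ≤ Real.exp (k * t₀) := by
          rw [Real.exp_nat_mul]
          apply pow_le_pow_left₀ (by linarith)
          rw [← Real.log_le_iff_le_exp (by linarith)]
          exact hsmall.le
        have hτ1 := tau_le_one k t (by linarith) (by linarith)
        have hτ0 := tau_nonneg k t (by linarith) (by linarith) htk
        have h3 : (1 : ℝ) ≤ (A.card : ℝ) ^ (k - k * tau k t + ε +
            50000 * (3 + log t) * δ * (k * tau k t)) := by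
          refine Real.one_le_rpow cA ?_
          have h4 : k * tau k t ≤ k * 1 := mul_le_mul_of_nonneg_left hτ1 (by linarith)
          have h5 : 0 ≤ 50000 * (3 + log t) * δ * (k * tau k t) := by positivity
          linarith
        have h4 : Real.exp (k * t₀) ≤ Real.exp (k * t₀ + k * ((3 + log t) *
            Real.exp (10 ^ 9 / (ε / (k * (3 + log t) * M))))) := by
          rw [Real.exp_le_exp]
          have : 0 ≤ (k : ℝ) * ((3 + log t) *
            Real.exp (10 ^ 9 / (ε / (k * (3 + log t) * M)))) := by positivity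
          linarith
        calc ((Fac (fun _ : Fin k => A) u).card : ℝ) ≤ Real.exp (k * t₀ + k * ((3 + log t) *
            Real.exp (10 ^ 9 / (ε / (k * (3 + log t) * M))))) * 1 := by
              rw [mul_one]
              linarith
          _ ≤ _ := mul_le_mul_of_nonneg_left h3 (Real.exp_pos _).le
  push Not at hsmall
  have hAne : A.Nonempty := by
    by_contra h
    rw [Finset.not_nonempty_iff_eq_empty] at h
    rw [h] at hsmall
    simp at hsmall
    linarith
  have cA : (1 : ℝ) ≤ A.card := by exact_mod_cast hAne.card_pos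
  have cA0 : (0 : ℝ) < A.card := by linarith
  obtain ⟨B, hBA, hFB, 𝒟, h𝒟1, h𝒟2, h𝒟3⟩ := hext A hsmall
  refine ⟨B, hBA, ?_, ?_⟩
  · -- energies
    intro j hj m hm
    obtain ⟨n, rfl⟩ := Nat.exists_eq_add_of_le' hm
    have h1 : (En B (n + 2 ^ j) : ℝ) ≤ (B.card : ℝ) ^ (2 * n) * En B (2 ^ j) := by
      exact_mod_cast En_young' B n (2 ^ j)
    have hBA' : (B.card : ℝ) ≤ A.card := by exact_mod_cast Finset.card_le_card hBA
    refine h1.trans ?_
    calc (B.card : ℝ) ^ (2 * n) * En B (2 ^ j)
        ≤ (A.card : ℝ) ^ (2 * n) * (A.card : ℝ) ^ (2 * (2 : ℝ) ^ j - 1 - j * δ) :=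
          mul_le_mul (pow_le_pow_left₀ (by positivity) hBA' _) (hFB j hj) (by positivity)
            (by positivity)
      _ = (A.card : ℝ) ^ (2 * ((n + 2 ^ j : ℕ) : ℝ) - 1 - j * δ) := by
          rw [← Real.rpow_natCast, ← Real.rpow_add cA0]
          congr 1
          push_cast
          ring
  · intro k hk ε hε hε1 t ht htk u hu
    have hlt : 0 ≤ log t := Real.log_nonneg ht
    have hk0 : (1 : ℝ) ≤ k := by exact_mod_cast hk
    obtain ⟨w, hw⟩ : ∃ w, w = 3 + log t := ⟨_, rfl⟩
    have hw3 : 3 ≤ w := by rw [hw]; linarith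
    obtain ⟨e, he⟩ : ∃ e, e = ε / (k * (3 + log t) * M) := ⟨_, rfl⟩
    have hden : 1 ≤ k * (3 + log t) * M := by
      rw [← hw]
      have h1 : 1 ≤ (k : ℝ) * w := by nlinarith
      nlinarith
    have he0 : 0 < e := by rw [he]; positivity
    have he1 : e ≤ 1 := by
      rw [he, div_le_one (by linarith)]
      linarith
    have heM : k * (w * (e * M)) = ε := by
      rw [he, ← hw]
      field_simp
    rw [← hM] at h𝒟1
    refine (facPT t ht δ e M hδ he0 he1 A (A \ B) _ rfl (ht₀.trans hsmall) 𝒟 h𝒟1 h𝒟2 h𝒟3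
      k hk htk u hu).trans ?_
    have hτ1 := tau_le_one k t (by linarith) (by linarith)
    have hτ0 := tau_nonneg k t (by linarith) (by linarith) htk
    beta_reduce
    rw [← he, ← hw]
    refine mul_le_mul ?_ ?_ (Real.rpow_nonneg cA0.le _) (Real.exp_pos _).le
    · rw [Real.exp_le_exp]
      have h3 : 0 ≤ (k : ℝ) * t₀ := mul_nonneg (Nat.cast_nonneg _) (by linarith)
      linarith
    · refine Real.rpow_le_rpow_of_exponent_le cA ?_
      have h4 : k * tau k t * (w * (42338 * δ + e * M)) =
          42338 * w * δ * (k * tau k t) + tau k t * (k * (w * (e * M))) := by ring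
      rw [h4, heM]
      have h5 : tau k t * ε ≤ 1 * ε := mul_le_mul_of_nonneg_right hτ1 hε.le
      have h6 : 0 ≤ w * δ * (k * tau k t) := by positivity
      linarith

end Pool.Agent.H87.PT
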