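import Mathlib
import Pool.Graph.R_seed8.Y359.LE.Along
import Pool.Agent.H87.PT.Dec

/-!
# Growth of sumsets and product sets
-/

set_option autoImplicit false
set_option linter.unusedSectionVars false

namespace Pool.Agent.H87.PT

open Finset Real
open Pool.Agent.H87.LL
open scoped Pointwise BigOperators
open Pool.Agent.Y359.LE (En En_pos sums_along)

/-- The set of the products. -/
theorem prod_eq_image (k : ℕ) (A : Fin k → Finset ℤ) :
    ∏ i, A i = (Fintype.piFinset A).image fun f => ∏ i, f i := by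
  ext x
  rw [mem_prod_iff, Finset.mem_image]
  constructor
  · rintro ⟨g, hg, h⟩
    exact ⟨g, Fintype.mem_piFinset.2 hg, h⟩
  · rintro ⟨g, hg, h⟩
    exact ⟨g, Fintype.mem_piFinset.1 hg, h⟩

/-- A set without zero of comparable size. -/
theorem erase_half (A : Finset ℤ) (h : 2 ≤ A.card) :
    (A.card : ℝ) / 2 ≤ (A.erase 0).card ∧ 1 ≤ (A.erase 0).card := by
  have h1 : A.card - 1 ≤ (A.erase 0).card := Finset.pred_card_le_card_erase
  have h2 : A.card ≤ 2 * (A.erase 0).card := by omega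
  refine ⟨?_, by omega⟩
  have : (A.card : ℝ) ≤ 2 * (A.erase 0).card := by exact_mod_cast h2
  linarith

/-- **The dichotomy.** -/
theorem dichotomy (m k : ℕ) (hm : 1 ≤ m) (hk : 1 ≤ k) (t : ℝ) (ht : 1 ≤ t) (htk : t ≤ 16 * k) :
    ∃ c : ℝ, 0 < c ∧ ∀ A : Finset ℤ, A.Nonempty →
      c * (A.card : ℝ) ^ (1 + log m / (400000 * (3 + log t))) ≤
        (((Fintype.piFinset fun _ : Fin m => A).image fun f => ∑ i, f i).card : ℝ) ∨
      c * (A.card : ℝ) ^ (k * tau k t / 2) ≤
        (((Fintype.piFinset fun _ : Fin k => A).image fun f => ∏ i, f i).card : ℝ) := by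
  classical
  have hlt : 0 ≤ log t := Real.log_nonneg ht
  have hk0 : (1 : ℝ) ≤ k := by exact_mod_cast hk
  have hm0 : (1 : ℝ) ≤ m := by exact_mod_cast hm
  obtain ⟨w, hw⟩ : ∃ w, w = 3 + log t := ⟨_, rfl⟩
  have hw3 : 3 ≤ w := by rw [hw]; linarith
  obtain ⟨τ, hτ⟩ : ∃ τ, τ = tau k t := ⟨_, rfl⟩
  have hτ1 : τ ≤ 1 := hτ ▸ tau_le_one k t (by linarith) (by linarith)
  have hτ0 : 0 ≤ τ := hτ ▸ tau_nonneg k t (by linarith) (by linarith) htk
  have hτpos : 0 < k * τ := by
    rw [hτ]
    unfold tau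
    have h1 : 0 ≤ log (16 * k / t) :=
      Real.log_nonneg (by rw [le_div_iff₀ (by linarith)]; linarith)
    positivity
  obtain ⟨δ, hδd⟩ : ∃ δ, δ = 1 / (200000 * w) := ⟨_, rfl⟩
  have hδ : 0 < δ := by rw [hδd]; positivity
  have hwδ : 50000 * w * δ = 1 / 4 := by
    rw [hδd]
    field_simp
    norm_num
  obtain ⟨J, hJ⟩ : ∃ J, J = Nat.log 2 m := ⟨_, rfl⟩
  have hJm : 2 ^ J ≤ m := by rw [hJ]; exact Nat.pow_log_le_self 2 (by omega)
  have hJlog : log m / 2 ≤ J := by
    rcases Nat.eq_zero_or_pos J with h | h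
    · have h2 : m < 2 ^ (J + 1) := by rw [hJ]; exact Nat.lt_pow_succ_log_self (by norm_num) m
      have h3 : m = 1 := by
        rw [h] at h2
        omega
      rw [h3]
      simp
    · have h2 : m < 2 ^ (J + 1) := by rw [hJ]; exact Nat.lt_pow_succ_log_self (by norm_num) m
      have h3 : log m ≤ (J + 1) * log 2 := by
        have h4 : (m : ℝ) ≤ 2 ^ (J + 1) := by exact_mod_cast h2.le
        have h5 := Real.log_le_log (by linarith) h4
        rw [Real.log_pow] at h5
        push_cast at h5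
        exact h5
      have h4 : (1 : ℝ) ≤ J := by exact_mod_cast h
      have h5 := Real.log_two_lt_d9
      have h6 : (0 : ℝ) ≤ J + 1 := by linarith
      nlinarith
  obtain ⟨C, hC, hdec⟩ := decG J δ hδ
  obtain ⟨ε, hεd⟩ : ∃ ε, ε = min 1 (k * τ / 4) := ⟨_, rfl⟩
  have hε : 0 < ε := by rw [hεd]; exact lt_min one_pos (by linarith)
  have hε1 : ε ≤ 1 := by rw [hεd]; exact min_le_left _ _
  have hε2 : ε ≤ k * τ / 4 := by rw [hεd]; exact min_le_right _ _
  obtain ⟨K, hK⟩ : ∃ K, K = C k ε t := ⟨_, rfl⟩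
  have hK0 : 0 < K := hK ▸ hC k ε t
  refine ⟨(4 ^ (m + k) * (1 + K))⁻¹, by positivity, ?_⟩
  intro A hA
  have cA : (1 : ℝ) ≤ A.card := by exact_mod_cast hA.card_pos
  have cA0 : (0 : ℝ) < A.card := by linarith
  obtain ⟨B, hBA, hB1, hB2⟩ := hdec A
  have hcard : (A \ B).card + B.card = A.card := Finset.card_sdiff_add_card_eq_card hBA
  have hmono_s : ∀ D ⊆ A, ((Fintype.piFinset fun _ : Fin m => D).image fun f => ∑ i, f i).card ≤
      ((Fintype.piFinset fun _ : Fin m => A).image fun f => ∑ i, f i).card := fun D hD =>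
    Finset.card_le_card (Finset.image_subset_image
      (Fintype.piFinset_subset _ _ fun _ => hD))
  have hmono_p : ∀ D ⊆ A, ((Fintype.piFinset fun _ : Fin k => D).image fun f => ∏ i, f i).card ≤
      ((Fintype.piFinset fun _ : Fin k => A).image fun f => ∏ i, f i).card := fun D hD =>
    Finset.card_le_card (Finset.image_subset_image
      (Fintype.piFinset_subset _ _ fun _ => hD))
  by_cases hA1 : A.card = 1
  · right
    have h1 : 1 ≤ ((Fintype.piFinset fun _ : Fin k => A).image fun f => ∏ i, f i).card := by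
      obtain ⟨a, ha⟩ := hA
      exact Finset.card_pos.2 ⟨_, Finset.mem_image_of_mem _
        (Fintype.mem_piFinset.2 fun _ => ha)⟩
    have h2 : (1 : ℝ) ≤
        (((Fintype.piFinset fun _ : Fin k => A).image fun f => ∏ i, f i).card : ℝ) := by
      exact_mod_cast h1
    refine le_trans ?_ h2
    rw [hA1, Nat.cast_one, Real.one_rpow, mul_one]
    apply inv_le_one_of_one_le₀
    have h3 : (1 : ℝ) ≤ 4 ^ (m + k) := one_le_pow₀ (by norm_num)
    nlinarith
  have hA2 : 2 ≤ A.card := by
    have := hA.card_pos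
    omega
  by_cases hc : A.card ≤ 2 * B.card
  · left
    have hB0 : 0 < B.card := by omega
    have hBne : B.Nonempty := Finset.card_pos.1 hB0
    have h1 := sums_along B m (Fintype.piFinset fun _ : Fin m => B)
      (fun f hf i => Fintype.mem_piFinset.1 hf i)
    rw [Fintype.card_piFinset] at h1
    simp only [Finset.prod_const, Finset.card_univ, Fintype.card_fin] at h1
    have h2 : ((B.card : ℝ) ^ m) ^ 2 ≤
        (((Fintype.piFinset fun _ : Fin m => B).image fun f => ∑ i, f i).card : ℝ) * En B m := by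
      exact_mod_cast h1
    have h3 := hB1 J le_rfl m hJm
    obtain ⟨S, hS⟩ : ∃ S : ℝ, S =
      (((Fintype.piFinset fun _ : Fin m => A).image fun f => ∑ i, f i).card : ℝ) := ⟨_, rfl⟩
    have hS1 : (((Fintype.piFinset fun _ : Fin m => B).image fun f => ∑ i, f i).card : ℝ) ≤ S := by
      rw [hS]
      exact_mod_cast hmono_s B hBA
    have hS0 : 0 ≤ S := by rw [hS]; positivity
    rw [← hS]
    have h4 : ((A.card : ℝ) / 2) ^ (2 * m) ≤ S * (A.card : ℝ) ^ (2 * (m : ℝ) - 1 - J * δ) := by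
      have h5 : (A.card : ℝ) / 2 ≤ B.card := by
        have : (A.card : ℝ) ≤ 2 * B.card := by exact_mod_cast hc
        linarith
      calc ((A.card : ℝ) / 2) ^ (2 * m) ≤ (B.card : ℝ) ^ (2 * m) :=
            pow_le_pow_left₀ (by positivity) h5 _
        _ = ((B.card : ℝ) ^ m) ^ 2 := by rw [← pow_mul]; congr 1; ring
        _ ≤ _ := h2
        _ ≤ S * (A.card : ℝ) ^ (2 * (m : ℝ) - 1 - J * δ) :=
          mul_le_mul hS1 h3 (Nat.cast_nonneg _) hS0
    have h5 : (A.card : ℝ) ^ (1 + J * δ) ≤ 4 ^ m * S := by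
      have h6 : (A.card : ℝ) ^ (2 * m) = (A.card : ℝ) ^ (1 + J * δ) *
          (A.card : ℝ) ^ (2 * (m : ℝ) - 1 - J * δ) := by
        rw [← Real.rpow_add cA0, ← Real.rpow_natCast]
        congr 1
        push_cast
        ring
      have h7 : (2 : ℝ) ^ (2 * m) = 4 ^ m := by
        rw [pow_mul]
        norm_num
      rw [div_pow, h6, h7, div_le_iff₀ (by positivity)] at h4
      have h8 : 0 < (A.card : ℝ) ^ (2 * (m : ℝ) - 1 - J * δ) := Real.rpow_pos_of_pos cA0 _
      refine le_of_mul_le_mul_right ?_ h8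
      linarith
    have h6 : (A.card : ℝ) ^ (1 + log m / (400000 * w)) ≤ (A.card : ℝ) ^ (1 + J * δ) := by
      refine Real.rpow_le_rpow_of_exponent_le cA ?_
      have h7 : log m / (400000 * w) = log m / 2 * δ := by
        rw [hδd]
        ring
      rw [h7]
      have := mul_le_mul_of_nonneg_right hJlog hδ.le
      linarith
    rw [← hw]
    have h7 : (4 ^ (m + k) * (1 + K))⁻¹ * (A.card : ℝ) ^ (1 + log m / (400000 * w)) ≤
        (4 ^ (m + k) * (1 + K))⁻¹ * (4 ^ m * S) :=
      mul_le_mul_of_nonneg_left (h6.trans h5) (by positivity)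
    refine h7.trans ?_
    rw [inv_mul_le_iff₀ (by positivity)]
    refine mul_le_mul_of_nonneg_right ?_ hS0
    rw [pow_add, mul_assoc]
    refine le_mul_of_one_le_right (by positivity) ?_
    have h8 : (1 : ℝ) ≤ 4 ^ k := one_le_pow₀ (by norm_num)
    nlinarith
  · right
    have hD2 : A.card ≤ 2 * (A \ B).card := by omega
    have hDpos : 1 ≤ (A \ B).card := by omega
    -- remove zero
    obtain ⟨D, hD⟩ : ∃ D, D = (A \ B).erase 0 := ⟨_, rfl⟩
    have hDA : D ⊆ A := by
      rw [hD]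
      exact (Finset.erase_subset _ _).trans Finset.sdiff_subset
    have hD0 : (0 : ℤ) ∉ D := by rw [hD]; exact Finset.notMem_erase _ _
    have hDc : A.card ≤ 4 * D.card := by
      have h1 : (A \ B).card - 1 ≤ ((A \ B).erase 0).card := Finset.pred_card_le_card_erase
      rw [← hD] at h1
      by_cases h2 : (A \ B).card = 1
      · -- then `|A| ≤ 2`, `|B| = 1`
        omega
      · omega
    have hfac : ∀ x : ℤ, x ≠ 0 → ((Fac (fun _ : Fin k => D) x).card : ℝ) ≤
        K * (A.card : ℝ) ^ (k - k * τ / 2) := by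
      intro x hx
      have h1 := hB2 k hk ε hε hε1 t ht htk x hx
      have h2 : (Fac (fun _ : Fin k => D) x).card ≤ (Fac (fun _ : Fin k => A \ B) x).card := by
        refine Finset.card_le_card (Finset.filter_subset_filter _
          (Fintype.piFinset_subset _ _ fun _ => ?_))
        rw [hD]
        exact Finset.erase_subset _ _
      have h3 : ((Fac (fun _ : Fin k => D) x).card : ℝ) ≤
          (Fac (fun _ : Fin k => A \ B) x).card := by exact_mod_cast h2
      refine h3.trans (h1.trans ?_)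
      rw [← hK, ← hτ, ← hw]
      refine mul_le_mul_of_nonneg_left (Real.rpow_le_rpow_of_exponent_le cA ?_) hK0.le
      rw [hwδ]
      linarith
    have h1 := fac_prod k (fun _ : Fin k => D) (fun _ => hD0) _ hfac
    rw [prod_eq_image] at h1
    simp only [Finset.prod_const, Finset.card_univ, Fintype.card_fin] at h1
    obtain ⟨S, hS⟩ : ∃ S : ℝ, S =
      (((Fintype.piFinset fun _ : Fin k => A).image fun f => ∏ i, f i).card : ℝ) := ⟨_, rfl⟩
    have hS1 : (((Fintype.piFinset fun _ : Fin k => D).image fun f => ∏ i, f i).card : ℝ) ≤ S := by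
      rw [hS]
      exact_mod_cast hmono_p D hDA
    have hS0 : 0 ≤ S := by rw [hS]; positivity
    rw [← hS, ← hτ]
    have h4 : ((A.card : ℝ) / 4) ^ k ≤ S * (K * (A.card : ℝ) ^ (k - k * τ / 2)) := by
      have h5 : (A.card : ℝ) / 4 ≤ D.card := by
        have : (A.card : ℝ) ≤ 4 * D.card := by exact_mod_cast hDc
        linarith
      calc ((A.card : ℝ) / 4) ^ k ≤ (D.card : ℝ) ^ k :=
            pow_le_pow_left₀ (by positivity) h5 _
        _ ≤ _ := h1
        _ ≤ _ := mul_le_mul_of_nonneg_right hS1 (by positivity)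
    have h5 : (A.card : ℝ) ^ (k * τ / 2) ≤ 4 ^ k * (K * S) := by
      have h6 : (A.card : ℝ) ^ k = (A.card : ℝ) ^ (k * τ / 2) *
          (A.card : ℝ) ^ (k - k * τ / 2) := by
        rw [← Real.rpow_add cA0, ← Real.rpow_natCast]
        congr 1
        ring
      rw [div_pow, h6, div_le_iff₀ (by positivity)] at h4
      have h8 : 0 < (A.card : ℝ) ^ (k - k * τ / 2) := Real.rpow_pos_of_pos cA0 _
      refine le_of_mul_le_mul_right ?_ h8
      linarith
    have h7 : (4 ^ (m + k) * (1 + K))⁻¹ * (A.card : ℝ) ^ (k * τ / 2) ≤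
        (4 ^ (m + k) * (1 + K))⁻¹ * (4 ^ k * (K * S)) :=
      mul_le_mul_of_nonneg_left h5 (by positivity)
    refine h7.trans ?_
    rw [inv_mul_le_iff₀ (by positivity), ← mul_assoc]
    refine mul_le_mul_of_nonneg_right ?_ hS0
    have h8 : (1 : ℝ) ≤ 4 ^ m := one_le_pow₀ (by norm_num)
    rw [pow_add]
    have h9 : (0 : ℝ) < 4 ^ k := by positivity
    have h10 : (4 : ℝ) ^ k * K ≤ 4 ^ m * (4 ^ k * K) :=
      le_mul_of_one_le_left (by positivity) h8
    nlinarith [mul_pos (pow_pos (show (0 : ℝ) < 4 by norm_num) m) h9]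

end Pool.Agent.H87.PT
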