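import Mathlib
import Pool.Agent.H87.PT.Grow

/-!
# Sums and products along a set of tuples: fixing some coordinates
-/

set_option autoImplicit false
set_option linter.unusedSectionVars false

namespace Pool.Agent.H87.PT

open Finset Real
open scoped Pointwise BigOperators

/-- Fixing the coordinates outside of `I`. -/
theorem fiber (k : ℕ) (A : Finset ℤ) (G : Finset (Fin k → ℤ)) (hG : ∀ f ∈ G, ∀ i, f i ∈ A)
    (hne : G.Nonempty) (I : Finset (Fin k)) (p : ℕ) (hp : I.card = p) :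
    ∃ G' : Finset (Fin p → ℤ), ∃ y : Fin k → ℤ, (∀ i ∉ I, y i ∈ A) ∧
      G.card ≤ A.card ^ (k - p) * G'.card ∧
      ∀ g ∈ G', ∃ f ∈ G, (∀ j, g j = f (I.orderEmbOfFin hp j)) ∧ ∀ i ∉ I, f i = y i := by
  classical
  obtain ⟨ρ, hρ⟩ : ∃ ρ : (Fin k → ℤ) → (Fin k → ℤ),
      ρ = fun f i => if i ∈ I then 0 else f i := ⟨_, rfl⟩
  obtain ⟨T, hT⟩ : ∃ T : Finset (Fin k → ℤ),
      T = Fintype.piFinset fun i => if i ∈ I then {0} else A := ⟨_, rfl⟩
  have hmaps : ∀ f ∈ G, ρ f ∈ T := by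
    intro f hf
    rw [hT, Fintype.mem_piFinset]
    intro i
    rw [hρ]
    by_cases hi : i ∈ I
    · simp [hi]
    · simp [hi, hG f hf i]
  have hTc : T.card = A.card ^ (k - p) := by
    rw [hT, Fintype.card_piFinset]
    have h1 : ∀ i : Fin k, (if i ∈ I then ({0} : Finset ℤ) else A).card =
        if i ∈ I then 1 else A.card := by
      intro i
      split_ifs <;> simp
    rw [Finset.prod_congr rfl fun i _ => h1 i, Finset.prod_ite]
    simp only [Finset.prod_const_one, one_mul, Finset.prod_const]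
    congr 1
    have h2 : (Finset.univ.filter fun i => i ∉ I) = Iᶜ := by
      ext i
      simp
    rw [h2, Finset.card_compl, Fintype.card_fin, hp]
  have hTne : T.Nonempty := by
    obtain ⟨f, hf⟩ := hne
    exact ⟨_, hmaps f hf⟩
  obtain ⟨y, hy, hmax⟩ :=
    Finset.exists_max_image T (fun y => (G.filter fun f => ρ f = y).card) hTne
  have hsum : G.card ≤ T.card * (G.filter fun f => ρ f = y).card := by
    rw [Finset.card_eq_sum_card_fiberwise (s := G) (t := T) (f := ρ) hmaps]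
    calc _ ≤ ∑ _y' ∈ T, (G.filter fun f => ρ f = y).card :=
          Finset.sum_le_sum fun y' hy' => hmax y' hy'
      _ = _ := by rw [Finset.sum_const, smul_eq_mul]
  refine ⟨(G.filter fun f => ρ f = y).image fun f j => f (I.orderEmbOfFin hp j), y, ?_, ?_, ?_⟩
  · intro i hi
    rw [hT, Fintype.mem_piFinset] at hy
    have := hy i
    simpa [hi] using this
  · rw [Finset.card_image_of_injOn, ← hTc]
    · exact hsum
    · intro f hf f' hf' h
      have h1 : ρ f = y := (Finset.mem_filter.1 hf).2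
      have h2 : ρ f' = y := (Finset.mem_filter.1 hf').2
      ext i
      by_cases hi : i ∈ I
      · obtain ⟨j, hj⟩ : i ∈ Set.range (I.orderEmbOfFin hp) := by
          rw [Finset.range_orderEmbOfFin]
          exact hi
        have h3 := congrFun h j
        simp only at h3
        rw [hj] at h3
        exact h3
      · have h3 := congrFun (h1.trans h2.symm) i
        rw [hρ] at h3
        simpa [hi] using h3
  · intro g hg
    obtain ⟨f, hf, rfl⟩ := Finset.mem_image.1 hg
    obtain ⟨hf1, hf2⟩ := Finset.mem_filter.1 hf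
    refine ⟨f, hf1, fun j => rfl, fun i hi => ?_⟩
    rw [← hf2, hρ]
    simp [hi]

theorem sum_split (k : ℕ) (I : Finset (Fin k)) (p : ℕ) (hp : I.card = p) (f : Fin k → ℤ) :
    ∑ i, f i = (∑ j, f (I.orderEmbOfFin hp j)) + ∑ i ∈ Iᶜ, f i := by
  rw [← Finset.sum_add_sum_compl I f]
  congr 1
  conv_lhs => rw [← Finset.map_orderEmbOfFin_univ I hp]
  rw [Finset.sum_map]
  rfl

theorem prod_split (k : ℕ) (I : Finset (Fin k)) (p : ℕ) (hp : I.card = p) (f : Fin k → ℤ) :
    ∏ i, f i = (∏ j, f (I.orderEmbOfFin hp j)) * ∏ i ∈ Iᶜ, f i := by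
  rw [← Finset.prod_mul_prod_compl I f]
  congr 1
  conv_lhs => rw [← Finset.map_orderEmbOfFin_univ I hp]
  rw [Finset.prod_map]
  rfl

/-- Sums along a fibre. -/
theorem sums_fiber (k : ℕ) (A : Finset ℤ) (G : Finset (Fin k → ℤ)) (hG : ∀ f ∈ G, ∀ i, f i ∈ A)
    (hne : G.Nonempty) (I : Finset (Fin k)) (p : ℕ) (hp : I.card = p) (B : Finset ℤ)
    (hB : ∀ f ∈ G, ∀ i ∈ I, f i ∈ B) :
    ∃ G' : Finset (Fin p → ℤ), (∀ g ∈ G', ∀ j, g j ∈ B) ∧
      G.card ≤ A.card ^ (k - p) * G'.card ∧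
      (G'.image fun g => ∑ j, g j).card ≤ (G.image fun f => ∑ i, f i).card := by
  classical
  obtain ⟨G', y, hy, hc, hG'⟩ := fiber k A G hG hne I p hp
  refine ⟨G', ?_, hc, ?_⟩
  · intro g hg j
    obtain ⟨f, hf, h1, _⟩ := hG' g hg
    rw [h1 j]
    exact hB f hf _ (Finset.orderEmbOfFin_mem I hp j)
  · refine Finset.card_le_card_of_injOn (fun x => x + ∑ i ∈ Iᶜ, y i) ?_
      (fun a _ b _ h => by simpa using h)
    intro x hx
    obtain ⟨g, hg, rfl⟩ := Finset.mem_image.1 hx
    obtain ⟨f, hf, h1, h2⟩ := hG' g hg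
    refine Finset.mem_coe.2 (Finset.mem_image.2 ⟨f, hf, ?_⟩)
    simp only
    rw [sum_split k I p hp f]
    congr 1
    · exact Finset.sum_congr rfl fun j _ => (h1 j).symm
    · exact Finset.sum_congr rfl fun i hi => h2 i (Finset.mem_compl.1 hi)

/-- Products along a fibre. -/
theorem prods_fiber (k : ℕ) (A : Finset ℤ) (h0 : (0 : ℤ) ∉ A) (G : Finset (Fin k → ℤ))
    (hG : ∀ f ∈ G, ∀ i, f i ∈ A)
    (hne : G.Nonempty) (I : Finset (Fin k)) (p : ℕ) (hp : I.card = p) (B : Finset ℤ)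
    (hB : ∀ f ∈ G, ∀ i ∈ I, f i ∈ B) :
    ∃ G' : Finset (Fin p → ℤ), (∀ g ∈ G', ∀ j, g j ∈ B ∧ g j ≠ 0) ∧
      G.card ≤ A.card ^ (k - p) * G'.card ∧
      (G'.image fun g => ∏ j, g j).card ≤ (G.image fun f => ∏ i, f i).card := by
  classical
  obtain ⟨G', y, hy, hc, hG'⟩ := fiber k A G hG hne I p hp
  have hy0 : ∏ i ∈ Iᶜ, y i ≠ 0 := by
    rw [Finset.prod_ne_zero_iff]
    intro i hi h
    exact h0 (h ▸ hy i (Finset.mem_compl.1 hi))
  refine ⟨G', ?_, hc, ?_⟩
  · intro g hg j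
    obtain ⟨f, hf, h1, _⟩ := hG' g hg
    rw [h1 j]
    exact ⟨hB f hf _ (Finset.orderEmbOfFin_mem I hp j), fun h => h0 (h ▸ hG f hf _)⟩
  · refine Finset.card_le_card_of_injOn (fun x => x * ∏ i ∈ Iᶜ, y i) ?_
      (fun a _ b _ h => mul_right_cancel₀ hy0 h)
    intro x hx
    obtain ⟨g, hg, rfl⟩ := Finset.mem_image.1 hx
    obtain ⟨f, hf, h1, h2⟩ := hG' g hg
    refine Finset.mem_coe.2 (Finset.mem_image.2 ⟨f, hf, ?_⟩)
    simp only
    rw [prod_split k I p hp f]
    congr 1
    · exact Finset.prod_congr rfl fun j _ => (h1 j).symm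
    · exact Finset.prod_congr rfl fun i hi => h2 i (Finset.mem_compl.1 hi)

/-- One class of tuples with the same set of coordinates in `B` is large. -/
theorem class_large (k : ℕ) (G : Finset (Fin k → ℤ)) (B : Finset ℤ) :
    ∃ I : Finset (Fin k), G.card ≤
      2 ^ k * (G.filter fun f => (Finset.univ.filter fun i => f i ∈ B) = I).card := by
  classical
  obtain ⟨I, _, hmax⟩ := Finset.exists_max_image (Finset.univ : Finset (Finset (Fin k)))
    (fun I => (G.filter fun f => (Finset.univ.filter fun i => f i ∈ B) = I).card)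
    Finset.univ_nonempty
  refine ⟨I, ?_⟩
  rw [Finset.card_eq_sum_card_fiberwise (s := G) (t := (Finset.univ : Finset (Finset (Fin k))))
    (f := fun f => (Finset.univ.filter fun i => f i ∈ B)) (fun _ _ => Finset.mem_coe.2 (Finset.mem_univ _))]
  calc _ ≤ ∑ _I' ∈ (Finset.univ : Finset (Finset (Fin k))),
        (G.filter fun f => (Finset.univ.filter fun i => f i ∈ B) = I).card :=
        Finset.sum_le_sum fun I' hI' => hmax I' hI'
    _ = _ := by
      rw [Finset.sum_const, smul_eq_mul, Finset.card_univ, Fintype.card_finset, Fintype.card_fin]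

end Pool.Agent.H87.PT
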