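import Mathlib
import Pool.Agent.H87.PT.Fiber

/-!
# Sums and products along a set of tuples, with a parameter
-/

set_option autoImplicit false
set_option linter.unusedSectionVars false

namespace Pool.Agent.H87.PT

open Finset Real
open Pool.Agent.H87.LL
open scoped Pointwise BigOperators
open Pool.Agent.Y359.LE (En En_pos sums_along)

/-- The saving does not decrease much if few coordinates are lost. -/
theorem part_saving (k q : ℕ) (t θ : ℝ) (hθ : 0 < θ) (hθ1 : θ ≤ 1 / 2) (ht : 2 ≤ t) (hk : 1 ≤ k)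
    (htk : t ≤ 16 * k) (hq : (1 - θ) * k ≤ q) :
    (1 - θ) * (k * tau k t) ≤ q * tau q ((1 - θ) * t) := by
  have hk0 : (1 : ℝ) ≤ k := by exact_mod_cast hk
  have h1θ : 0 < 1 - θ := by linarith
  have hqp : (0 : ℝ) < q := lt_of_lt_of_le (by positivity) hq
  have e1 : (k : ℝ) * tau k t = t / 16 * (1 + log (16 * k / t)) := by
    unfold tau
    field_simp
  have e2 : (q : ℝ) * tau q ((1 - θ) * t) =
      (1 - θ) * t / 16 * (1 + log (16 * q / ((1 - θ) * t))) := by
    unfold tau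
    field_simp
  rw [e1, e2]
  have h1 : log (16 * k / t) ≤ log (16 * q / ((1 - θ) * t)) := by
    apply Real.log_le_log (by positivity)
    rw [div_le_div_iff₀ (by linarith) (by positivity)]
    have h2 : 16 * t * ((1 - θ) * k) ≤ 16 * t * q := mul_le_mul_of_nonneg_left hq (by linarith)
    linarith
  have h2 : 0 ≤ (1 - θ) * t / 16 := by positivity
  have h3 := mul_le_mul_of_nonneg_left h1 h2
  have h4 : (1 - θ) * (t / 16 * (1 + log (16 * k / t))) =
      (1 - θ) * t / 16 + (1 - θ) * t / 16 * log (16 * k / t) := by ring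
  have h5 : (1 - θ) * t / 16 * (1 + log (16 * q / ((1 - θ) * t))) =
      (1 - θ) * t / 16 + (1 - θ) * t / 16 * log (16 * q / ((1 - θ) * t)) := by ring
  rw [h4, h5]
  linarith

theorem log_part (k p : ℕ) (θ : ℝ) (hθ : 0 < θ) (hk : 1 / θ ^ 2 ≤ k) (hp : θ * k < p)
    (hk1 : 1 ≤ k) : log k / 4 ≤ (Nat.log 2 p : ℝ) := by
  have hk0 : (1 : ℝ) ≤ k := by exact_mod_cast hk1
  have hp00 : (0 : ℝ) < p := lt_trans (by positivity) hp
  have hp1 : 1 ≤ p := by exact_mod_cast hp00
  have hp0 : (1 : ℝ) ≤ p := by exact_mod_cast hp1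
  have h1 : (k : ℝ) ≤ (p : ℝ) ^ 2 := by
    rw [div_le_iff₀ (by positivity)] at hk
    have h2 : (θ * k) ^ 2 ≤ (p : ℝ) ^ 2 := pow_le_pow_left₀ (by positivity) hp.le 2
    have h3 : (k : ℝ) * 1 ≤ k * (k * θ ^ 2) := mul_le_mul_of_nonneg_left hk (by linarith)
    have h4 : (θ * k) ^ 2 = k * (k * θ ^ 2) := by ring
    linarith
  have h2 : log k ≤ 2 * log p := by
    have := Real.log_le_log (by linarith) h1
    rw [Real.log_pow] at this
    exact_mod_cast this
  have h3 : log p / 2 ≤ (Nat.log 2 p : ℝ) := by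
    rcases Nat.eq_zero_or_pos (Nat.log 2 p) with h | h
    · have h4 : p < 2 ^ (Nat.log 2 p + 1) := Nat.lt_pow_succ_log_self (by norm_num) p
      have h5 : p = 1 := by
        rw [h] at h4
        omega
      rw [h5]
      simp
    · have h4 : p < 2 ^ (Nat.log 2 p + 1) := Nat.lt_pow_succ_log_self (by norm_num) p
      obtain ⟨J, hJ⟩ : ∃ J, J = Nat.log 2 p := ⟨_, rfl⟩
      rw [← hJ] at h4 h ⊢
      have h5 : log p ≤ (J + 1) * log 2 := by
        have h6 : (p : ℝ) ≤ 2 ^ (J + 1) := by exact_mod_cast h4.le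
        have h7 := Real.log_le_log (by linarith) h6
        rw [Real.log_pow] at h7
        push_cast at h7
        exact h7
      have h6 : (1 : ℝ) ≤ J := by exact_mod_cast h
      have h7 := Real.log_two_lt_d9
      nlinarith
  linarith

/-- **Sums and products along a set of tuples.** -/
theorem alongE (κ : ℝ) (hκ : 0 < κ) (hκ1 : κ ≤ 1) (k : ℕ) (hkκ : 4 / κ ^ 2 ≤ k) (t : ℝ)
    (ht : 2 ≤ t) (htk : t ≤ 16 * k) :
    ∃ c : ℝ, 0 < c ∧ ∀ A : Finset ℤ, (0 : ℤ) ∉ A → ∀ G : Finset (Fin k → ℤ),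
      (∀ f ∈ G, ∀ i, f i ∈ A) →
      c * ((G.card : ℝ) / (A.card : ℝ) ^ k) ^ 2 *
          (A.card : ℝ) ^ (1 + κ * log k / (800000 * (3 + log t))) ≤
        ((G.image fun f => ∑ i, f i).card : ℝ) ∨
      c * ((G.card : ℝ) / (A.card : ℝ) ^ k) * (A.card : ℝ) ^ ((1 - κ) * (k * tau k t)) ≤
        ((G.image fun f => ∏ i, f i).card : ℝ) := by
  classical
  have ht0 : 0 < t := by linarith
  have hlt : 0 ≤ log t := Real.log_nonneg (by linarith)
  obtain ⟨θ, hθd⟩ : ∃ θ, θ = κ / 2 := ⟨_, rfl⟩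
  have hθ : 0 < θ := by rw [hθd]; linarith
  have hθ1 : θ ≤ 1 / 2 := by rw [hθd]; linarith
  have hkθ : 1 / θ ^ 2 ≤ k := by
    have : 1 / θ ^ 2 = 4 / κ ^ 2 := by
      rw [hθd]
      field_simp
      norm_num
    rw [this]
    exact hkκ
  have hk : 1 ≤ k := by
    have h1 : (0 : ℝ) < k := lt_of_lt_of_le (by positivity) hkθ
    exact_mod_cast h1
  have hk0 : (1 : ℝ) ≤ k := by exact_mod_cast hk
  obtain ⟨w, hw⟩ : ∃ w, w = 3 + log t := ⟨_, rfl⟩
  have hw3 : 3 ≤ w := by rw [hw]; linarith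
  obtain ⟨δ, hδd⟩ : ∃ δ, δ = κ / (200000 * w) := ⟨_, rfl⟩
  have hδ : 0 < δ := by rw [hδd]; positivity
  have hwδ : 50000 * w * δ = κ / 4 := by
    rw [hδd]
    field_simp
    norm_num
  obtain ⟨t', ht'⟩ : ∃ t', t' = (1 - θ) * t := ⟨_, rfl⟩
  have ht'1 : 1 ≤ t' := by rw [ht']; nlinarith
  have ht't : t' ≤ t := by rw [ht']; nlinarith
  have hlt2 : log t' ≤ log t := Real.log_le_log (by linarith) ht't
  have hlt3 : 0 ≤ log t' := Real.log_nonneg ht'1
  obtain ⟨C, hC, hdec⟩ := decG (Nat.log 2 k) δ hδ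
  obtain ⟨s, hs⟩ : ∃ s, s = k * tau k t := ⟨_, rfl⟩
  have hspos : 0 < s := by
    rw [hs]
    unfold tau
    have h1 : 0 ≤ log (16 * k / t) :=
      Real.log_nonneg (by rw [le_div_iff₀ ht0]; linarith)
    positivity
  obtain ⟨ε, hεd⟩ : ∃ ε, ε = min 1 (κ * s / 4) := ⟨_, rfl⟩
  have hκs : 0 < κ * s := mul_pos hκ hspos
  have hε : 0 < ε := by rw [hεd]; exact lt_min one_pos (by linarith)
  have hε1 : ε ≤ 1 := by rw [hεd]; exact min_le_left _ _
  have hε2 : ε ≤ κ * s / 4 := by rw [hεd]; exact min_le_right _ _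
  obtain ⟨K, hK⟩ : ∃ K, K = ∑ q ∈ Finset.range (k + 1), C q ε t' := ⟨_, rfl⟩
  have hKq : ∀ q ≤ k, C q ε t' ≤ K := fun q hq => by
    rw [hK]
    exact Finset.single_le_sum (f := fun q => C q ε t') (fun q _ => (hC q ε t').le)
      (Finset.mem_range.2 (by omega))
  have hK0 : 0 < K := lt_of_lt_of_le (hC 0 ε t') (hKq 0 (Nat.zero_le _))
  refine ⟨(4 ^ k * (1 + K))⁻¹, by positivity, ?_⟩
  intro A h0A G hG
  rcases G.eq_empty_or_nonempty with hGe | hGne
  · left
    rw [hGe]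
    simp
  have hAne : A.Nonempty := by
    obtain ⟨f, hf⟩ := hGne
    exact ⟨_, hG f hf ⟨0, hk⟩⟩
  have cA : (1 : ℝ) ≤ A.card := by exact_mod_cast hAne.card_pos
  have cA0 : (0 : ℝ) < A.card := by linarith
  have cG0 : (0 : ℝ) < G.card := by exact_mod_cast hGne.card_pos
  obtain ⟨B, hBA, hB1, hB2⟩ := hdec A
  obtain ⟨I, hI⟩ := class_large k G B
  obtain ⟨GI, hGI⟩ : ∃ GI, GI = G.filter fun f => (Finset.univ.filter fun i => f i ∈ B) = I :=
    ⟨_, rfl⟩
  rw [← hGI] at hI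
  have hGIsub : GI ⊆ G := by rw [hGI]; exact Finset.filter_subset _ _
  have hGIA : ∀ f ∈ GI, ∀ i, f i ∈ A := fun f hf => hG f (hGIsub hf)
  have hGIne : GI.Nonempty := by
    rw [← Finset.card_pos]
    by_contra h
    have h1 : GI.card = 0 := by omega
    rw [h1, mul_zero] at hI
    have := hGne.card_pos
    omega
  have hmem : ∀ f ∈ GI, ∀ i, (f i ∈ B ↔ i ∈ I) := by
    intro f hf i
    rw [hGI] at hf
    have h1 := (Finset.mem_filter.1 hf).2
    rw [← h1]
    simp
  have hI' : (G.card : ℝ) ≤ 2 ^ k * GI.card := by exact_mod_cast hI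
  have hIk : I.card ≤ k := by
    have := Finset.card_le_univ I
    rwa [Fintype.card_fin] at this
  obtain ⟨g, hg⟩ : ∃ g : ℝ, g = (G.card : ℝ) / (A.card : ℝ) ^ k := ⟨_, rfl⟩
  have hg0 : 0 < g := by rw [hg]; positivity
  have hGg : (G.card : ℝ) = g * (A.card : ℝ) ^ k := by
    rw [hg]
    field_simp
  rw [← hg]
  by_cases hc : θ * k < I.card
  · -- sums
    left
    obtain ⟨p, hp⟩ : ∃ p, p = I.card := ⟨_, rfl⟩
    obtain ⟨G', h1, h2, h3⟩ := sums_fiber k A GI hGIA hGIne I p hp.symm B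
      (fun f hf i hi => (hmem f hf i).2 hi)
    rw [← hp] at hc hIk
    have h4 := sums_along B p G' h1
    have hp00 : (0 : ℝ) < p := lt_trans (mul_pos hθ (by linarith)) hc
    have hp0 : 0 < p := by exact_mod_cast hp00
    have hpos : 2 ^ Nat.log 2 p ≤ p := Nat.pow_log_le_self 2 (by omega)
    have h5 := hB1 (Nat.log 2 p) (Nat.log_mono_right hIk) p hpos
    have h6 : ((G'.card : ℝ)) ^ 2 ≤ ((G'.image fun g => ∑ j, g j).card : ℝ) * En B p := by
      exact_mod_cast h4
    obtain ⟨S, hS⟩ : ∃ S : ℝ, S = ((G.image fun f => ∑ i, f i).card : ℝ) := ⟨_, rfl⟩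
    rw [← hS]
    have hS1 : ((G'.image fun g => ∑ j, g j).card : ℝ) ≤ S := by
      rw [hS]
      exact Nat.cast_le.2 (h3.trans (Finset.card_le_card (Finset.image_subset_image hGIsub)))
    have hS0 : 0 ≤ S := by rw [hS]; exact Nat.cast_nonneg _
    have h7 : (G'.card : ℝ) ^ 2 ≤
        S * (A.card : ℝ) ^ (2 * (p : ℝ) - 1 - (Nat.log 2 p : ℕ) * δ) := by
      refine h6.trans ?_
      exact mul_le_mul hS1 h5 (Nat.cast_nonneg _) hS0
    -- |G'| is at least g |A|^p / 2^k
    have h8 : g * (A.card : ℝ) ^ p ≤ 2 ^ k * G'.card := by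
      have h9 : (GI.card : ℝ) ≤ (A.card : ℝ) ^ (k - p) * G'.card := by exact_mod_cast h2
      have h10 : g * (A.card : ℝ) ^ k ≤ 2 ^ k * ((A.card : ℝ) ^ (k - p) * G'.card) := by
        rw [← hGg]
        exact hI'.trans (mul_le_mul_of_nonneg_left h9 (by positivity))
      have h11 : (A.card : ℝ) ^ k = (A.card : ℝ) ^ p * (A.card : ℝ) ^ (k - p) := by
        rw [← pow_add]
        congr 1
        omega
      rw [h11] at h10
      have h12 : 0 < (A.card : ℝ) ^ (k - p) := pow_pos cA0 _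
      refine le_of_mul_le_mul_right ?_ h12
      linarith
    have h9 : g ^ 2 * (A.card : ℝ) ^ (2 * (p : ℝ)) ≤ 4 ^ k * (G'.card : ℝ) ^ 2 := by
      have h10 := pow_le_pow_left₀ (mul_nonneg hg0.le (pow_nonneg cA0.le _)) h8 2
      have h11 : (A.card : ℝ) ^ (2 * (p : ℝ)) = ((A.card : ℝ) ^ p) ^ 2 := by
        rw [← pow_mul, ← Real.rpow_natCast]
        congr 1
        push_cast
        ring
      have h12 : (4 : ℝ) ^ k = (2 ^ k) ^ 2 := by
        rw [← pow_mul, mul_comm k 2, pow_mul]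
        norm_num
      rw [h11, h12, ← mul_pow, ← mul_pow]
      exact h10
    have h10 : g ^ 2 * (A.card : ℝ) ^ (1 + (Nat.log 2 p : ℕ) * δ) ≤ 4 ^ k * S := by
      have h11 : (A.card : ℝ) ^ (2 * (p : ℝ)) =
          (A.card : ℝ) ^ (1 + (Nat.log 2 p : ℕ) * δ) *
            (A.card : ℝ) ^ (2 * (p : ℝ) - 1 - (Nat.log 2 p : ℕ) * δ) := by
        rw [← Real.rpow_add cA0]
        congr 1
        ring
      have h12 : 0 < (A.card : ℝ) ^ (2 * (p : ℝ) - 1 - (Nat.log 2 p : ℕ) * δ) :=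
        Real.rpow_pos_of_pos cA0 _
      refine le_of_mul_le_mul_right ?_ h12
      have h13 := mul_le_mul_of_nonneg_left h7 (show (0 : ℝ) ≤ 4 ^ k by positivity)
      rw [h11] at h9
      linarith
    have h11 : (A.card : ℝ) ^ (1 + κ * log k / (800000 * w)) ≤
        (A.card : ℝ) ^ (1 + (Nat.log 2 p : ℕ) * δ) := by
      refine Real.rpow_le_rpow_of_exponent_le cA ?_
      have h12 : κ * log k / (800000 * w) = log k / 4 * δ := by
        rw [hδd]
        ring
      rw [h12]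
      have := mul_le_mul_of_nonneg_right (log_part k p θ hθ hkθ hc hk) hδ.le
      linarith
    rw [← hw]
    have h12 : g ^ 2 * (A.card : ℝ) ^ (1 + κ * log k / (800000 * w)) ≤ 4 ^ k * S :=
      (mul_le_mul_of_nonneg_left h11 (by positivity)).trans h10
    rw [mul_assoc, inv_mul_le_iff₀ (by positivity)]
    refine h12.trans (mul_le_mul_of_nonneg_right ?_ hS0)
    refine le_mul_of_one_le_right (by positivity) (by linarith)
  · -- products
    right
    push Not at hc
    obtain ⟨q, hq⟩ : ∃ q, q = Iᶜ.card := ⟨_, rfl⟩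
    have hq2 : q = k - I.card := by rw [hq, Finset.card_compl, Fintype.card_fin]
    have hqk : q ≤ k := by omega
    have hqr : (q : ℝ) = k - I.card := by rw [hq2, Nat.cast_sub hIk]
    have hkq : (1 - θ) * k ≤ q := by rw [hqr]; linarith
    have hq00 : (0 : ℝ) < q := lt_of_lt_of_le (mul_pos (by linarith) (by linarith)) hkq
    have hq1 : 1 ≤ q := by exact_mod_cast hq00
    have ht'q : t' ≤ 16 * q := by
      have h1 : (1 - θ) * t ≤ (1 - θ) * (16 * k) := mul_le_mul_of_nonneg_left htk (by linarith)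
      rw [ht']
      linarith
    obtain ⟨G', h1, h2, h3⟩ := prods_fiber k A h0A GI hGIA hGIne Iᶜ q hq.symm (A \ B)
      (fun f hf i hi => Finset.mem_sdiff.2 ⟨hGIA f hf i, fun h =>
        (Finset.mem_compl.1 hi) ((hmem f hf i).1 h)⟩)
    obtain ⟨s', hs'⟩ : ∃ s', s' = q * tau q t' := ⟨_, rfl⟩
    have hss : (1 - θ) * s ≤ s' := by
      rw [hs, hs', ht']
      exact part_saving k q t θ hθ hθ1 ht hk htk hkq
    have hs'0 : 0 ≤ s' := le_trans (mul_nonneg (by linarith) hspos.le) hss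
    have hfac : ∀ x : ℤ, x ≠ 0 → ((Fac (fun _ : Fin q => A \ B) x).card : ℝ) ≤
        K * (A.card : ℝ) ^ (q - (1 - κ) * s) := by
      intro x hx
      have h4 := hB2 q hq1 ε hε hε1 t' ht'1 ht'q x hx
      rw [← hs'] at h4
      refine h4.trans (mul_le_mul (hKq q hqk)
        (Real.rpow_le_rpow_of_exponent_le cA ?_) (Real.rpow_nonneg cA0.le _) hK0.le)
      have h5 : 50000 * (3 + log t') * δ ≤ κ / 4 := by
        rw [← hwδ, hw]
        have : 3 + log t' ≤ 3 + log t := by linarith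
        have h6 := mul_le_mul_of_nonneg_right this (show 0 ≤ 50000 * δ by positivity)
        linarith
      have h6 : 50000 * (3 + log t') * δ * s' ≤ κ / 4 * s' :=
        mul_le_mul_of_nonneg_right h5 hs'0
      have h7 : (1 - κ / 4) * ((1 - θ) * s) ≤ (1 - κ / 4) * s' :=
        mul_le_mul_of_nonneg_left hss (by linarith)
      have h8 : (1 - κ / 4) * ((1 - θ) * s) = s - 3 / 4 * (κ * s) + κ ^ 2 / 8 * s := by
        rw [hθd]
        ring
      have h9 : 0 ≤ κ ^ 2 / 8 * s := by positivity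
      linarith
    obtain ⟨S, hS⟩ : ∃ S : ℝ, S = ((G.image fun f => ∏ i, f i).card : ℝ) := ⟨_, rfl⟩
    rw [← hS]
    have hS1 : ((G'.image fun g => ∏ j, g j).card : ℝ) ≤ S := by
      rw [hS]
      exact Nat.cast_le.2 (h3.trans (Finset.card_le_card (Finset.image_subset_image hGIsub)))
    have hS0 : 0 ≤ S := by rw [hS]; exact Nat.cast_nonneg _
    have h4 : (G'.card : ℝ) ≤ S * (K * (A.card : ℝ) ^ (q - (1 - κ) * s)) := by
      have h5 : (G'.card : ℝ) = ∑ x ∈ G'.image fun g => ∏ j, g j,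
          ((G'.filter fun g => ∏ j, g j = x).card : ℝ) := by
        have h6 := Finset.card_eq_sum_card_fiberwise (s := G')
          (t := G'.image fun g => ∏ j, g j) (f := fun g => ∏ j, g j)
          (fun g hg => Finset.mem_coe.2 (Finset.mem_image_of_mem _ hg))
        exact_mod_cast h6
      rw [h5]
      have h6 : ∀ x ∈ G'.image fun g => ∏ j, g j,
          ((G'.filter fun g => ∏ j, g j = x).card : ℝ) ≤ K * (A.card : ℝ) ^ (q - (1 - κ) * s) := by
        intro x hx
        obtain ⟨g₁, hg₁, hx₁⟩ := Finset.mem_image.1 hx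
        have hx0 : x ≠ 0 := by
          rw [← hx₁, Finset.prod_ne_zero_iff]
          exact fun j _ => (h1 g₁ hg₁ j).2
        refine le_trans ?_ (hfac x hx0)
        have h8 : (G'.filter fun g => ∏ j, g j = x) ⊆
            Fac (fun _ : Fin q => A \ B) x := by
          intro g₂ hg₂
          obtain ⟨h9, h10⟩ := Finset.mem_filter.1 hg₂
          exact Finset.mem_filter.2 ⟨Fintype.mem_piFinset.2 fun j => (h1 g₂ h9 j).1, h10⟩
        exact Nat.cast_le.2 (Finset.card_le_card h8)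
      refine (Finset.sum_le_sum h6).trans ?_
      rw [Finset.sum_const, nsmul_eq_mul]
      exact mul_le_mul_of_nonneg_right hS1 (mul_nonneg hK0.le (Real.rpow_nonneg cA0.le _))
    have h5 : g * (A.card : ℝ) ^ q ≤ 2 ^ k * G'.card := by
      have h9 : (GI.card : ℝ) ≤ (A.card : ℝ) ^ (k - q) * G'.card := by exact_mod_cast h2
      have h10 : g * (A.card : ℝ) ^ k ≤ 2 ^ k * ((A.card : ℝ) ^ (k - q) * G'.card) := by
        rw [← hGg]
        exact hI'.trans (mul_le_mul_of_nonneg_left h9 (by positivity))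
      have h11 : (A.card : ℝ) ^ k = (A.card : ℝ) ^ q * (A.card : ℝ) ^ (k - q) := by
        rw [← pow_add]
        congr 1
        omega
      rw [h11] at h10
      have h12 : 0 < (A.card : ℝ) ^ (k - q) := pow_pos cA0 _
      refine le_of_mul_le_mul_right ?_ h12
      linarith
    have h6 : g * (A.card : ℝ) ^ ((1 - κ) * s) ≤ 2 ^ k * (K * S) := by
      have h7 : (A.card : ℝ) ^ q = (A.card : ℝ) ^ ((1 - κ) * s) * (A.card : ℝ) ^ (q - (1 - κ) * s) := by
        rw [← Real.rpow_add cA0, ← Real.rpow_natCast]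
        congr 1
        ring
      have h8 : 0 < (A.card : ℝ) ^ (q - (1 - κ) * s) := Real.rpow_pos_of_pos cA0 _
      refine le_of_mul_le_mul_right ?_ h8
      have h9 := mul_le_mul_of_nonneg_left h4 (show (0 : ℝ) ≤ 2 ^ k by positivity)
      rw [h7] at h5
      linarith
    rw [← hs, mul_assoc, inv_mul_le_iff₀ (by positivity)]
    refine h6.trans ?_
    have h7 : (2 : ℝ) ^ k ≤ 4 ^ k := pow_le_pow_left₀ (by norm_num) (by norm_num) k
    calc 2 ^ k * (K * S) ≤ 4 ^ k * (K * S) := mul_le_mul_of_nonneg_right h7 (by positivity)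
      _ ≤ 4 ^ k * (1 + K) * S := by
        have : 0 ≤ (4 : ℝ) ^ k * S := by positivity
        nlinarith

end Pool.Agent.H87.PT
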