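import Mathlib
import Pool.Agent.H87.PT.Grow

/-!
# Few sums: growth of the product sets for all numbers of factors at once
-/

set_option autoImplicit false
set_option linter.unusedSectionVars false

namespace Pool.Agent.H87.PT

open Finset Real
open Pool.Agent.H87.LL
open scoped Pointwise BigOperators

theorem WL_few (e η ℓ : ℝ) (A A' : Finset ℤ) (hA : A.Nonempty) (hA'n : A'.Nonempty)
    (hA' : A' ⊆ A) (hℓ : ℓ = log A.card) (h : log ((A + A).card : ℝ) ≤ (1 + η) * ℓ) :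
    WL e A' A A ≤ (2016 * η + e) * ℓ + Real.exp (10 ^ 9 / e) := by
  have c1 : (0 : ℝ) < (A' + A).card := by exact_mod_cast (hA'n.add hA).card_pos
  have c2 : log ((A' + A).card : ℝ) ≤ (1 + η) * ℓ := by
    refine (Real.log_le_log c1 ?_).trans h
    exact_mod_cast Finset.card_le_card (Finset.add_subset_add_right hA')
  unfold WL D2
  rw [← hℓ]
  linarith

/-- **Few sums.** -/
theorem few (t : ℝ) (ht : 1 ≤ t) :
    ∃ N : ℝ, ∀ A : Finset ℤ, N ≤ A.card →
      ((A + A).card : ℝ) ≤ (A.card : ℝ) ^ (1 + 1 / (20000 * (3 + log t))) →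
      ∀ k : ℕ, 1 ≤ k → t ≤ 16 * k →
        (A.card : ℝ) ^ (k * tau k t / 2) ≤
          (((Fintype.piFinset fun _ : Fin k => A).image fun f => ∏ i, f i).card : ℝ) := by
  classical
  have hlt : 0 ≤ log t := Real.log_nonneg ht
  obtain ⟨w, hw⟩ : ∃ w, w = 3 + log t := ⟨_, rfl⟩
  have hw3 : 3 ≤ w := by rw [hw]; linarith
  rw [← hw]
  obtain ⟨η, hη⟩ : ∃ η, η = 1 / (20000 * w) := ⟨_, rfl⟩
  obtain ⟨e, he⟩ : ∃ e, e = 1 / (8 * w) := ⟨_, rfl⟩
  have he0 : 0 < e := by rw [he]; positivity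
  have he1 : e ≤ 1 := by
    rw [he, div_le_one (by positivity)]
    linarith
  have hη0 : 0 < η := by rw [hη]; positivity
  have hηw : η * w = 1 / 20000 := by rw [hη]; field_simp
  have hew : e * w = 1 / 8 := by rw [he]; field_simp
  refine ⟨Real.exp (4 * (1 + w * Real.exp (10 ^ 9 / e))) + 2, ?_⟩
  intro A hN hAA k hk htk
  have hEpos := Real.exp_pos (4 * (1 + w * Real.exp (10 ^ 9 / e)))
  have cA2 : (2 : ℝ) ≤ A.card := by linarith
  have hA2 : 2 ≤ A.card := by exact_mod_cast cA2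
  have cA0 : (0 : ℝ) < A.card := by linarith
  have hA : A.Nonempty := Finset.card_pos.1 (by omega)
  obtain ⟨ℓ, hℓ⟩ : ∃ ℓ, ℓ = log (A.card : ℝ) := ⟨_, rfl⟩
  have hℓN : 4 * (1 + w * Real.exp (10 ^ 9 / e)) ≤ ℓ := by
    rw [hℓ, Real.le_log_iff_exp_le cA0]
    linarith
  have hℓ0 : 0 < ℓ := by
    have : 0 ≤ w * Real.exp (10 ^ 9 / e) := by positivity
    linarith
  have hk0 : (1 : ℝ) ≤ k := by exact_mod_cast hk
  obtain ⟨A', hA'⟩ : ∃ A', A' = A.erase 0 := ⟨_, rfl⟩
  have hA'A : A' ⊆ A := by rw [hA']; exact Finset.erase_subset _ _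
  have hA'0 : (0 : ℤ) ∉ A' := by rw [hA']; exact Finset.notMem_erase _ _
  obtain ⟨hhalf, hA'pos⟩ := erase_half A hA2
  rw [← hA'] at hhalf hA'pos
  have hA'n : A'.Nonempty := Finset.card_pos.1 hA'pos
  have cA' : (0 : ℝ) < A'.card := by exact_mod_cast hA'pos
  have hAAn : (0 : ℝ) < (A + A).card := by exact_mod_cast (hA.add hA).card_pos
  have hlogAA : log ((A + A).card : ℝ) ≤ (1 + η) * ℓ := by
    rw [← hη] at hAA
    have h1 := Real.log_le_log hAAn hAA
    rwa [Real.log_rpow cA0, ← hℓ] at h1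
  have hWL := WL_few e η ℓ A A' hA hA'n hA'A hℓ hlogAA
  have hg := growth k hk e he0 he1 t ht htk (fun _ => A') (fun _ => A) (fun _ => A)
    (fun _ => hA'n) (fun _ => hA'0) (fun _ => hA) (fun _ => hA)
  rw [prod_eq_image, ← hw] at hg
  obtain ⟨τ, hτ⟩ : ∃ τ, τ = tau k t := ⟨_, rfl⟩
  have hτ0 : 0 ≤ τ := hτ ▸ tau_nonneg k t (by linarith) (by linarith) htk
  rw [← hτ] at hg ⊢
  have hone : (A.card : ℝ) ^ (τ / 2) ≤ ((A'.card : ℝ) / WW e A' A A ^ w) ^ τ := by
    rw [WW_eq e A' A A hA'n hA hA]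
    have h1 : (A'.card : ℝ) / Real.exp (WL e A' A A) ^ w =
        Real.exp (log A'.card - w * WL e A' A A) := by
      rw [Real.exp_sub, Real.exp_log cA', ← Real.exp_mul, mul_comm w]
    rw [h1, Real.rpow_def_of_pos cA0, ← Real.exp_mul, Real.exp_le_exp, ← hℓ]
    have h2 : ℓ - 1 ≤ log A'.card := by
      have h3 := Real.log_le_log (by positivity) hhalf
      rw [Real.log_div cA0.ne' (by norm_num), ← hℓ] at h3
      have := Real.log_two_lt_d9
      linarith
    have h3 : w * WL e A' A A ≤ w * ((2016 * η + e) * ℓ + Real.exp (10 ^ 9 / e)) :=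
      mul_le_mul_of_nonneg_left hWL (by linarith)
    have h4 : w * ((2016 * η + e) * ℓ + Real.exp (10 ^ 9 / e)) =
        (2016 * (η * w) + e * w) * ℓ + w * Real.exp (10 ^ 9 / e) := by ring
    rw [h4, hηw, hew] at h3
    have h5 : ℓ / 2 ≤ log A'.card - w * WL e A' A A := by linarith
    have h6 := mul_le_mul_of_nonneg_left h5 hτ0
    linarith
  have h2 : ((A.card : ℝ) ^ (τ / 2)) ^ k ≤
      (((Fintype.piFinset fun _ : Fin k => A').image fun f => ∏ i, f i).card : ℝ) := by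
    refine le_trans ?_ hg
    rw [Finset.prod_const, Finset.card_univ, Fintype.card_fin]
    exact pow_le_pow_left₀ (Real.rpow_nonneg cA0.le _) hone k
  have h3 : ((A.card : ℝ) ^ (τ / 2)) ^ k = (A.card : ℝ) ^ (k * τ / 2) := by
    rw [← Real.rpow_natCast, ← Real.rpow_mul cA0.le]
    congr 1
    ring
  rw [h3] at h2
  refine h2.trans ?_
  exact_mod_cast Finset.card_le_card (Finset.image_subset_image
    (Fintype.piFinset_subset _ _ fun _ => hA'A))

end Pool.Agent.H87.PT
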