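import Mathlib
import Pool.Agent.H87.PW.Dec1
import Pool.Agent.H87.PT.Grow

/-!
# Few `m`-fold sums: growth of the product sets for all numbers of factors at once
-/

set_option autoImplicit false
set_option linter.unusedSectionVars false

namespace Pool.Agent.H87.PT

open Finset Real
open Pool.Agent.H87.LL
open Pool.Agent.H87.PW (extractPW)
open scoped Pointwise BigOperators
open Pool.Agent.Y359.LE (En En_young' sums_along)

/-- A large part of `C` in one piece. -/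
theorem exists_piece (C : Finset ℤ) (𝒟 : Finset (Finset ℤ)) (hC : C ⊆ 𝒟.biUnion id)
    (n : ℕ) (hn : ∑ D ∈ 𝒟, D.card ≤ n) (ℓ δ : ℝ) (hℓ : (n : ℝ) = Real.exp ℓ)
    (h𝒟 : ∀ D ∈ 𝒟, Real.exp ((1 - 6 * δ) * ℓ) ≤ D.card) (hne : C.Nonempty) :
    ∃ D ∈ 𝒟, (C.card : ℝ) * Real.exp (-(6 * δ * ℓ)) ≤ ((D ∩ C).card : ℝ) := by
  classical
  have h𝒟ne : 𝒟.Nonempty := by
    obtain ⟨a, ha⟩ := hne
    obtain ⟨D, hD, _⟩ := Finset.mem_biUnion.1 (hC ha)
    exact ⟨D, hD⟩
  obtain ⟨D, hD, hmax⟩ := Finset.exists_max_image 𝒟 (fun D => (D ∩ C).card) h𝒟ne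
  refine ⟨D, hD, ?_⟩
  have h1 : (𝒟.card : ℝ) * Real.exp ((1 - 6 * δ) * ℓ) ≤ Real.exp ℓ := by
    calc (𝒟.card : ℝ) * Real.exp ((1 - 6 * δ) * ℓ) = ∑ _D ∈ 𝒟, Real.exp ((1 - 6 * δ) * ℓ) := by
          rw [Finset.sum_const, nsmul_eq_mul]
      _ ≤ ∑ D ∈ 𝒟, (D.card : ℝ) := Finset.sum_le_sum h𝒟
      _ ≤ (n : ℝ) := by exact_mod_cast hn
      _ = _ := hℓ
  have h2 : (𝒟.card : ℝ) ≤ Real.exp (6 * δ * ℓ) := by
    have h3 : Real.exp ℓ = Real.exp (6 * δ * ℓ) * Real.exp ((1 - 6 * δ) * ℓ) := by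
      rw [← Real.exp_add]
      congr 1
      ring
    rw [h3] at h1
    exact le_of_mul_le_mul_right h1 (Real.exp_pos _)
  have h3 : (C.card : ℝ) ≤ 𝒟.card * ((D ∩ C).card : ℝ) := by
    have h4 : C ⊆ 𝒟.biUnion fun D => D ∩ C := by
      intro a ha
      obtain ⟨D', hD', haD'⟩ := Finset.mem_biUnion.1 (hC ha)
      exact Finset.mem_biUnion.2 ⟨D', hD', Finset.mem_inter.2 ⟨haD', ha⟩⟩
    have h5 : C.card ≤ 𝒟.card * (D ∩ C).card := by
      refine (Finset.card_le_card h4).trans (Finset.card_biUnion_le.trans ?_)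
      calc ∑ D' ∈ 𝒟, (D' ∩ C).card ≤ ∑ _D' ∈ 𝒟, (D ∩ C).card :=
            Finset.sum_le_sum fun D' hD' => hmax D' hD'
        _ = _ := by rw [Finset.sum_const, smul_eq_mul]
    exact_mod_cast h5
  rw [Real.exp_neg, ← div_eq_mul_inv, div_le_iff₀ (Real.exp_pos _)]
  calc (C.card : ℝ) ≤ 𝒟.card * ((D ∩ C).card : ℝ) := h3
    _ ≤ Real.exp (6 * δ * ℓ) * ((D ∩ C).card : ℝ) :=
        mul_le_mul_of_nonneg_right h2 (Nat.cast_nonneg _)
    _ = _ := mul_comm _ _

/-- The product sets of a structured piece grow. -/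
theorem piece_grow (κ e δ ℓ w M : ℝ) (hκ1 : κ ≤ 1) (hℓ0 : 0 ≤ ℓ)
    (he : 0 < e) (he1 : e ≤ 1) (hw : 3 ≤ w) (hδ0 : 0 ≤ δ) (hM0 : 0 ≤ M)
    (hδ : δ * w = κ / 100000) (heM : e * M * w = κ / 4)
    (hℓ : 4 * (2 + w * Real.exp (10 ^ 9 / e)) ≤ κ * ℓ)
    (D P : Finset ℤ) (hD : D.Nonempty) (hD0 : (0 : ℤ) ∉ D) (hP : P.Nonempty)
    (hDc : (1 - 6 * δ) * ℓ - 2 ≤ log D.card)
    (h1 : ((D + -P).card : ℝ) ≤ Real.exp (21 * δ * ℓ) * P.card)
    (h2 : ((-P + P).card : ℝ) ≤ Real.exp (21 * δ * ℓ) * P.card)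
    (h3 : log P.card ≤ M * ℓ)
    (k : ℕ) (hk : 1 ≤ k) (u : ℝ) (hu : 1 ≤ u) (huw : 3 + log u ≤ w) (huk : u ≤ 16 * k) :
    Real.exp (((1 - κ) * (k * tau k u)) * ℓ) ≤
      (((Fintype.piFinset fun _ : Fin k => D).image fun f => ∏ i, f i).card : ℝ) := by
  classical
  have hlu : 0 ≤ log u := Real.log_nonneg hu
  have hk0 : (1 : ℝ) ≤ k := by exact_mod_cast hk
  have cP0 : (0 : ℝ) < P.card := by exact_mod_cast hP.card_pos
  have cD0 : (0 : ℝ) < D.card := by exact_mod_cast hD.card_pos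
  have cS1 : (0 : ℝ) < (D + -P).card := by exact_mod_cast (hD.add hP.neg).card_pos
  have cS2 : (0 : ℝ) < (-P + P).card := by exact_mod_cast (hP.neg.add hP).card_pos
  have hg := growth k hk e he he1 u hu huk (fun _ => D) (fun _ => -P) (fun _ => P)
    (fun _ => hD) (fun _ => hD0) (fun _ => hP.neg) (fun _ => hP)
  rw [prod_eq_image] at hg
  refine le_trans ?_ hg
  obtain ⟨τ, hτ⟩ : ∃ τ, τ = tau k u := ⟨_, rfl⟩
  have hτ0 : 0 ≤ τ := hτ ▸ tau_nonneg k u (by linarith) (by linarith) huk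
  rw [← hτ]
  obtain ⟨E, hE⟩ : ∃ E, E = Real.exp (10 ^ 9 / e) := ⟨_, rfl⟩
  have hE0 : 0 ≤ E := by rw [hE]; positivity
  rw [← hE] at hℓ
  have hWL : WL e D (-P) P ≤ (42336 * δ + e * M) * ℓ + E := by
    have a1 : log ((D + -P).card : ℝ) - log ((-P).card : ℝ) ≤ 21 * δ * ℓ := by
      have h4 := Real.log_le_log cS1 h1
      rw [Real.log_mul (Real.exp_pos _).ne' cP0.ne', Real.log_exp] at h4
      rw [Finset.card_neg]
      linarith
    have a2 : D2 (-P) P ≤ 21 * δ * ℓ := by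
      have h4 := Real.log_le_log cS2 h2
      rw [Real.log_mul (Real.exp_pos _).ne' cP0.ne', Real.log_exp] at h4
      unfold D2
      rw [Finset.card_neg]
      linarith
    have a3 : e * log ((-P).card : ℝ) ≤ e * (M * ℓ) := by
      rw [Finset.card_neg]
      exact mul_le_mul_of_nonneg_left h3 he.le
    unfold WL
    rw [← hE]
    linarith
  have hU0 : 0 ≤ (42336 * δ + e * M) * ℓ + E := by positivity
  have hWL2 : (3 + log u) * WL e D (-P) P ≤ w * ((42336 * δ + e * M) * ℓ + E) := by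
    calc (3 + log u) * WL e D (-P) P ≤ (3 + log u) * ((42336 * δ + e * M) * ℓ + E) :=
          mul_le_mul_of_nonneg_left hWL (by linarith)
      _ ≤ _ := mul_le_mul_of_nonneg_right huw hU0
  have hone : Real.exp ((1 - κ) * τ * ℓ) ≤
      ((D.card : ℝ) / WW e D (-P) P ^ (3 + log u)) ^ τ := by
    rw [WW_eq e D (-P) P hD hP.neg hP]
    have h4 : (D.card : ℝ) / Real.exp (WL e D (-P) P) ^ (3 + log u) =
        Real.exp (log D.card - (3 + log u) * WL e D (-P) P) := by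
      rw [Real.exp_sub, Real.exp_log cD0, ← Real.exp_mul, mul_comm (3 + log u)]
    rw [h4, ← Real.exp_mul, Real.exp_le_exp]
    have h5 : (1 - κ) * ℓ ≤ log D.card - (3 + log u) * WL e D (-P) P := by
      have h6 : w * ((42336 * δ + e * M) * ℓ + E) =
          (42336 * (δ * w) + e * M * w) * ℓ + w * E := by ring
      rw [h6, hδ, heM] at hWL2
      have h7 : 3 * (δ * ℓ) ≤ κ / 100000 * ℓ := by
        rw [← hδ]
        have h8 : 0 ≤ δ * ℓ := mul_nonneg hδ0 hℓ0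
        have h9 := mul_le_mul_of_nonneg_left hw h8
        linarith
      have h10 : 0 ≤ w * E := mul_nonneg (by linarith) hE0
      linarith
    have h6 := mul_le_mul_of_nonneg_left h5 hτ0
    linarith
  rw [Finset.prod_const, Finset.card_univ, Fintype.card_fin]
  have h4 := pow_le_pow_left₀ (Real.exp_pos _).le hone k
  refine le_trans (le_of_eq ?_) h4
  rw [← Real.exp_nat_mul]
  congr 1
  ring

/-- **Few `m`-fold sums.** -/
theorem fewM (m : ℕ) (hm : 2 ≤ m) (t : ℝ) (ht : 1 ≤ t) (κ : ℝ) (hκ : 0 < κ) (hκ1 : κ ≤ 1) :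
    ∃ N : ℝ, ∀ A : Finset ℤ, N ≤ A.card →
      (((Fintype.piFinset fun _ : Fin m => A).image fun f => ∑ i, f i).card : ℝ) ≤
        (A.card : ℝ) ^ (1 + κ * log m / (250000 * (3 + log t))) →
      ∀ k : ℕ, 1 ≤ k → ∀ u : ℝ, 1 ≤ u → u ≤ t → u ≤ 16 * k →
        (A.card : ℝ) ^ ((1 - κ) * (k * tau k u)) ≤
          (((Fintype.piFinset fun _ : Fin k => A).image fun f => ∏ i, f i).card : ℝ) := by
  classical
  have hlt : 0 ≤ log t := Real.log_nonneg ht
  obtain ⟨w, hw⟩ : ∃ w, w = 3 + log t := ⟨_, rfl⟩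
  have hw3 : 3 ≤ w := by rw [hw]; linarith
  rw [← hw]
  obtain ⟨δ, hδd⟩ : ∃ δ, δ = κ / (100000 * w) := ⟨_, rfl⟩
  have hδ : 0 < δ := by rw [hδd]; positivity
  have hδw : δ * w = κ / 100000 := by
    rw [hδd]
    field_simp
  obtain ⟨J, hJ⟩ : ∃ J, J = Nat.log 2 m := ⟨_, rfl⟩
  have hJm : 2 ^ J ≤ m := by rw [hJ]; exact Nat.pow_log_le_self 2 (by omega)
  have hm2 : (2 : ℝ) ≤ m := by exact_mod_cast hm
  have hlm : log 2 ≤ log m := Real.log_le_log (by norm_num) hm2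
  have hl2 := Real.log_two_gt_d9
  have hl2' := Real.log_two_lt_d9
  have hJlog : log m / 2 ≤ J := by
    have h1 : m < 2 ^ (J + 1) := by rw [hJ]; exact Nat.lt_pow_succ_log_self (by norm_num) m
    have h2 : 1 ≤ J := by
      by_contra h
      have : J = 0 := by omega
      rw [this] at h1
      omega
    have h3 : log m ≤ (J + 1) * log 2 := by
      have h4 : (m : ℝ) ≤ 2 ^ (J + 1) := by exact_mod_cast h1.le
      have h5 := Real.log_le_log (by linarith) h4
      rw [Real.log_pow] at h5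
      push_cast at h5
      exact h5
    have h4 : (1 : ℝ) ≤ J := by exact_mod_cast h2
    nlinarith
  obtain ⟨M, hM⟩ : ∃ M : ℝ, M = (2 : ℝ) ^ J := ⟨_, rfl⟩
  have hM1 : 1 ≤ M := by rw [hM]; exact one_le_pow₀ (by norm_num)
  obtain ⟨e, hed⟩ : ∃ e, e = κ / (4 * (M * w)) := ⟨_, rfl⟩
  have hMw : 1 ≤ M * w := by nlinarith
  have he : 0 < e := by rw [hed]; positivity
  have he1 : e ≤ 1 := by
    rw [hed, div_le_one (by positivity)]
    linarith
  have heM : e * M * w = κ / 4 := by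
    rw [hed]
    field_simp
  obtain ⟨t₀, ht₀, hext⟩ := extractPW J δ hδ
  obtain ⟨X, hX⟩ : ∃ X, X = 4 * (2 + w * Real.exp (10 ^ 9 / e)) / κ := ⟨_, rfl⟩
  obtain ⟨Y, hY⟩ : ∃ Y, Y = 4 * 10 ^ 6 * w * m / κ := ⟨_, rfl⟩
  have hX0 : 0 ≤ X := by rw [hX]; positivity
  have hY0 : 0 ≤ Y := by rw [hY]; positivity
  refine ⟨Real.exp (t₀ + X + Y), ?_⟩
  intro A hN hmA k hk u hu hut huk
  have cA0 : (0 : ℝ) < A.card := lt_of_lt_of_le (Real.exp_pos _) hN
  obtain ⟨ℓ, hℓ⟩ : ∃ ℓ, ℓ = log (A.card : ℝ) := ⟨_, rfl⟩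
  have hcA : (A.card : ℝ) = Real.exp ℓ := by rw [hℓ, Real.exp_log cA0]
  have hℓN : t₀ + X + Y ≤ ℓ := by
    rw [hℓ, Real.le_log_iff_exp_le cA0]
    exact hN
  have hℓX : 4 * (2 + w * Real.exp (10 ^ 9 / e)) ≤ κ * ℓ := by
    have h1 : X ≤ ℓ := by linarith
    rw [hX, div_le_iff₀ hκ] at h1
    linarith
  have hℓY : 4 * 10 ^ 6 * w * m ≤ κ * ℓ := by
    have h1 : Y ≤ ℓ := by linarith
    rw [hY, div_le_iff₀ hκ] at h1
    linarith
  have hℓ1 : 1 ≤ ℓ := by linarith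
  obtain ⟨B, hBA, hFB, 𝒟, h𝒟1, h𝒟2, h𝒟3⟩ := hext A (by rw [← hℓ]; linarith)
  rw [← hℓ] at h𝒟1
  have hcard : (A \ B).card + B.card = A.card := Finset.card_sdiff_add_card_eq_card hBA
  -- B is small
  have hBs : 2 * B.card < A.card := by
    by_contra hc
    push Not at hc
    have hcr : (A.card : ℝ) / 2 ≤ B.card := by
      have : (A.card : ℝ) ≤ 2 * B.card := by exact_mod_cast hc
      linarith
    obtain ⟨n, hn⟩ := Nat.exists_eq_add_of_le' hJm
    have h1 : (En B m : ℝ) ≤ (A.card : ℝ) ^ (2 * (m : ℝ) - 1 - J * δ) := by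
      have h2 : (En B (n + 2 ^ J) : ℝ) ≤ (B.card : ℝ) ^ (2 * n) * En B (2 ^ J) := by
        exact_mod_cast En_young' B n (2 ^ J)
      have hBA' : (B.card : ℝ) ≤ A.card := by exact_mod_cast Finset.card_le_card hBA
      rw [hn]
      refine h2.trans ?_
      calc (B.card : ℝ) ^ (2 * n) * En B (2 ^ J)
          ≤ (A.card : ℝ) ^ (2 * n) * (A.card : ℝ) ^ (2 * (2 : ℝ) ^ J - 1 - J * δ) :=
            mul_le_mul (pow_le_pow_left₀ (Nat.cast_nonneg _) hBA' _) (hFB J le_rfl)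
              (Nat.cast_nonneg _) (pow_nonneg cA0.le _)
        _ = (A.card : ℝ) ^ (2 * ((n + 2 ^ J : ℕ) : ℝ) - 1 - J * δ) := by
            rw [← Real.rpow_natCast, ← Real.rpow_add cA0]
            congr 1
            push_cast
            ring
    have h2 := sums_along B m (Fintype.piFinset fun _ : Fin m => B)
      (fun f hf i => Fintype.mem_piFinset.1 hf i)
    rw [Fintype.card_piFinset] at h2
    simp only [Finset.prod_const, Finset.card_univ, Fintype.card_fin] at h2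
    have h3 : ((B.card : ℝ) ^ m) ^ 2 ≤
        (((Fintype.piFinset fun _ : Fin m => B).image fun f => ∑ i, f i).card : ℝ) * En B m := by
      exact_mod_cast h2
    have h4 : (((Fintype.piFinset fun _ : Fin m => B).image fun f => ∑ i, f i).card : ℝ) ≤
        (A.card : ℝ) ^ (1 + κ * log m / (250000 * w)) := by
      refine le_trans ?_ hmA
      exact_mod_cast Finset.card_le_card (Finset.image_subset_image
        (Fintype.piFinset_subset _ _ fun _ => hBA))
    have h5 : ((A.card : ℝ) / 2) ^ (2 * m) ≤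
        (A.card : ℝ) ^ (1 + κ * log m / (250000 * w)) *
          (A.card : ℝ) ^ (2 * (m : ℝ) - 1 - J * δ) := by
      calc ((A.card : ℝ) / 2) ^ (2 * m) ≤ (B.card : ℝ) ^ (2 * m) :=
            pow_le_pow_left₀ (by linarith) hcr _
        _ = ((B.card : ℝ) ^ m) ^ 2 := by rw [← pow_mul]; congr 1; ring
        _ ≤ _ := h3
        _ ≤ _ := mul_le_mul h4 h1 (Nat.cast_nonneg _) (Real.rpow_nonneg cA0.le _)
    have h6 := Real.log_le_log (pow_pos (by linarith) _) h5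
    rw [Real.log_pow, Real.log_div cA0.ne' (by norm_num), Real.log_mul
      (Real.rpow_pos_of_pos cA0 _).ne' (Real.rpow_pos_of_pos cA0 _).ne', Real.log_rpow cA0,
      Real.log_rpow cA0, ← hℓ] at h6
    push_cast at h6
    have h7 : κ * log m / (200000 * w) ≤ J * δ := by
      have h8 := mul_le_mul_of_nonneg_right hJlog hδ.le
      have h9 : log m / 2 * δ = κ * log m / (200000 * w) := by
        rw [hδd]
        ring
      linarith
    have h8 : κ * log m / (200000 * w) * ℓ ≤ J * δ * ℓ :=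
      mul_le_mul_of_nonneg_right h7 (by linarith)
    have h9 : κ * log m / (200000 * w) * ℓ - κ * log m / (250000 * w) * ℓ =
        log m * (κ * ℓ) / (10 ^ 6 * w) := by
      field_simp
      ring
    have h10 : 4 * m * log m ≤ log m * (κ * ℓ) / (10 ^ 6 * w) := by
      rw [le_div_iff₀ (by positivity)]
      have := mul_le_mul_of_nonneg_left hℓY (show 0 ≤ log m by linarith)
      linarith
    have h11 : (m : ℝ) * log 2 ≤ m * log m := mul_le_mul_of_nonneg_left hlm (by linarith)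
    have h12 : 0 < (m : ℝ) * log 2 := by positivity
    nlinarith
  -- a large piece
  have hCc : (A.card : ℝ) / 2 ≤ (A \ B).card := by
    have h1 : A.card ≤ 2 * (A \ B).card := by omega
    have h2 : (A.card : ℝ) ≤ 2 * (A \ B).card := by exact_mod_cast h1
    linarith
  have hCne : (A \ B).Nonempty := by
    rw [← Finset.card_pos]
    omega
  obtain ⟨D, hD, hDl⟩ := exists_piece (A \ B) 𝒟 h𝒟2 A.card h𝒟3 ℓ δ hcA
    (fun D hD => (h𝒟1 D hD).2) hCne
  obtain ⟨P, hPne, hPs1, hPs2, hPc⟩ := (h𝒟1 D hD).1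
  have hDl2 : Real.exp ((1 - 6 * δ) * ℓ) / 2 ≤ ((D ∩ (A \ B)).card : ℝ) := by
    refine le_trans ?_ hDl
    have h1 := mul_le_mul_of_nonneg_right hCc (Real.exp_pos (-(6 * δ * ℓ))).le
    refine le_trans (le_of_eq ?_) h1
    rw [hcA, show (1 - 6 * δ) * ℓ = ℓ + -(6 * δ * ℓ) by ring, Real.exp_add]
    ring
  have hδs : δ ≤ 1 / 300000 := by
    rw [hδd, div_le_div_iff₀ (by positivity) (by norm_num)]
    linarith
  have hbig : (4 : ℝ) ≤ Real.exp ((1 - 6 * δ) * ℓ) := by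
    have h1 : (4 * 10 ^ 6 * w * m : ℝ) ≤ ℓ := by
      have : κ * ℓ ≤ 1 * ℓ := mul_le_mul_of_nonneg_right hκ1 (by linarith)
      linarith
    have h2 : (4 : ℝ) ≤ ℓ := by nlinarith
    have h3 : (3 : ℝ) ≤ (1 - 6 * δ) * ℓ := by nlinarith
    have h4 := Real.add_one_le_exp ((1 - 6 * δ) * ℓ)
    linarith
  have hD2 : (2 : ℝ) ≤ ((D ∩ (A \ B)).card : ℝ) := by linarith
  have hD2n : 2 ≤ (D ∩ (A \ B)).card := by exact_mod_cast hD2
  obtain ⟨hhalf, hpos⟩ := erase_half (D ∩ (A \ B)) hD2n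
  obtain ⟨D', hD'⟩ : ∃ D', D' = (D ∩ (A \ B)).erase 0 := ⟨_, rfl⟩
  rw [← hD'] at hhalf hpos
  have hD'D : D' ⊆ D := by
    rw [hD']
    exact (Finset.erase_subset _ _).trans Finset.inter_subset_left
  have hD'A : D' ⊆ A := by
    rw [hD']
    exact (Finset.erase_subset _ _).trans (Finset.inter_subset_right.trans Finset.sdiff_subset)
  have hD'ne : D'.Nonempty := Finset.card_pos.1 hpos
  have hD'c : (0 : ℝ) < D'.card := by exact_mod_cast hpos
  have hlogD : (1 - 6 * δ) * ℓ - 2 ≤ log D'.card := by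
    have h1 : Real.exp ((1 - 6 * δ) * ℓ) / 4 ≤ D'.card := by linarith
    have h2 := Real.log_le_log (by positivity) h1
    rw [Real.log_div (Real.exp_pos _).ne' (by norm_num), Real.log_exp] at h2
    have h3 : log 4 ≤ 2 := by
      have : (4 : ℝ) = 2 ^ 2 := by norm_num
      rw [this, Real.log_pow]
      push_cast
      linarith
    linarith
  have cP0 : (0 : ℝ) < P.card := by exact_mod_cast hPne.card_pos
  have h3 : log P.card ≤ M * ℓ := by
    have h4 := Real.log_le_log cP0 hPc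
    rw [Real.log_pow, ← hℓ] at h4
    rw [hM]
    exact_mod_cast h4
  have hfin := piece_grow κ e δ ℓ w M hκ1 (by linarith) he he1 hw3 hδ.le (by linarith) hδw heM
    hℓX D' P hD'ne (by rw [hD']; exact Finset.notMem_erase _ _) hPne hlogD
    (le_trans (Nat.cast_le.2 (Finset.card_le_card (Finset.add_subset_add_right hD'D))) hPs1)
    hPs2 h3 k hk u hu
    (by rw [hw]; have := Real.log_le_log (by linarith) hut; linarith) huk
  rw [Real.rpow_def_of_pos cA0, ← hℓ, mul_comm ℓ]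
  refine hfin.trans ?_
  exact Nat.cast_le.2 (Finset.card_le_card (Finset.image_subset_image
    (Fintype.piFinset_subset _ _ fun _ => hD'A)))

end Pool.Agent.H87.PT
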