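import Mathlib
import Pool.Agent.H87.PT.Grow

/-!
# Factorisations and product sets in terms of the number of `m`-fold sums
-/

set_option autoImplicit false
set_option linter.unusedSectionVars false

namespace Pool.Agent.H87.PT

open Finset Real
open Pool.Agent.H87.LL
open scoped Pointwise BigOperators

theorem nsmul_eq_image (m : ℕ) (A : Finset ℤ) :
    m • A = (Fintype.piFinset fun _ : Fin m => A).image fun f => ∑ i, f i := by
  ext x
  rw [Finset.mem_nsmul, Finset.mem_image]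
  constructor
  · rintro ⟨f, hf⟩
    refine ⟨fun i => (f i : ℤ), Fintype.mem_piFinset.2 fun i => (f i).2, ?_⟩
    rw [← hf, List.sum_ofFn]
  · rintro ⟨f, hf, h⟩
    refine ⟨fun i => ⟨f i, Fintype.mem_piFinset.1 hf i⟩, ?_⟩
    rw [← h, List.sum_ofFn]

/-- One of the sets `2 ^ j B` has a small doubling. -/
theorem exists_scale (B : Finset ℤ) (hB : B.Nonempty) (m : ℕ) (hm : 2 ≤ m) :
    ∃ P : Finset ℤ, P.Nonempty ∧ (P.card : ℝ) ≤ (m • B).card ∧
      log ((B + P).card : ℝ) - log P.card ≤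
        (log ((m • B).card : ℝ) - log B.card) / Nat.log 2 m ∧
      log ((P + P).card : ℝ) - log P.card ≤
        (log ((m • B).card : ℝ) - log B.card) / Nat.log 2 m := by
  obtain ⟨J, hJ⟩ : ∃ J, J = Nat.log 2 m := ⟨_, rfl⟩
  have hJm : 2 ^ J ≤ m := by rw [hJ]; exact Nat.pow_log_le_self 2 (by omega)
  have hJ1 : 1 ≤ J := by
    rw [hJ]
    exact Nat.log_pos (by norm_num) hm
  rw [← hJ]
  have hJ0 : (0 : ℝ) < J := by exact_mod_cast hJ1
  have hmono : Monotone fun n : ℕ => (n • B).card := hB.card_nsmul_mono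
  have hne : ∀ n : ℕ, (n • B).Nonempty := fun n => hB.nsmul
  have hpos : ∀ n : ℕ, (0 : ℝ) < (n • B).card := fun n => by exact_mod_cast (hne n).card_pos
  obtain ⟨Δ, hΔ⟩ : ∃ Δ, Δ = log ((m • B).card : ℝ) - log B.card := ⟨_, rfl⟩
  rw [← hΔ]
  -- pigeonhole
  have hpig : ∃ j < J, log (((2 ^ (j + 1)) • B).card : ℝ) - log (((2 ^ j) • B).card : ℝ) ≤
      Δ / J := by
    by_contra hc
    push Not at hc
    have h1 : ∑ j ∈ Finset.range J, (log (((2 ^ (j + 1)) • B).card : ℝ) -
        log (((2 ^ j) • B).card : ℝ)) =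
        log (((2 ^ J) • B).card : ℝ) - log (((2 ^ 0) • B).card : ℝ) :=
      Finset.sum_range_sub (fun j => log (((2 ^ j) • B).card : ℝ)) J
    have h2 : ∑ _j ∈ Finset.range J, Δ / J < ∑ j ∈ Finset.range J,
        (log (((2 ^ (j + 1)) • B).card : ℝ) - log (((2 ^ j) • B).card : ℝ)) := by
      refine Finset.sum_lt_sum_of_nonempty ⟨0, Finset.mem_range.2 (by omega)⟩ ?_
      intro j hj
      exact hc j (Finset.mem_range.1 hj)
    rw [h1, Finset.sum_const, Finset.card_range, nsmul_eq_mul, mul_div_cancel₀ _ hJ0.ne',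
      pow_zero, one_nsmul] at h2
    have h3 : log (((2 ^ J) • B).card : ℝ) ≤ log ((m • B).card : ℝ) :=
      Real.log_le_log (hpos _) (by exact_mod_cast hmono hJm)
    linarith
  obtain ⟨j, hj, hjle⟩ := hpig
  have hadd : (2 ^ j) • B + (2 ^ j) • B = (2 ^ (j + 1)) • B := by
    rw [← add_nsmul]
    congr 1
    ring
  refine ⟨(2 ^ j) • B, hne _, ?_, ?_, ?_⟩
  · exact_mod_cast hmono ((Nat.pow_le_pow_right (by norm_num) hj.le).trans hJm)
  · refine le_trans ?_ hjle
    have h1 : (B + (2 ^ j) • B).card ≤ ((2 ^ (j + 1)) • B).card := by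
      have h2 : B + (2 ^ j) • B = (1 + 2 ^ j) • B := by rw [add_nsmul, one_nsmul]
      rw [h2]
      refine hmono ?_
      have : 1 ≤ 2 ^ j := Nat.one_le_two_pow
      rw [pow_succ]
      omega
    have h2 : (0 : ℝ) < (B + (2 ^ j) • B).card := by
      exact_mod_cast (hB.add (hne _)).card_pos
    have h3 := Real.log_le_log h2 (by exact_mod_cast h1 :
      ((B + (2 ^ j) • B).card : ℝ) ≤ ((2 ^ (j + 1)) • B).card)
    linarith
  · rw [hadd]
    exact hjle

/-- The loss in terms of the `m`-fold sums. -/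
noncomputable def VV (e : ℝ) (m : ℕ) (B : Finset ℤ) : ℝ :=
  Real.exp (Real.exp (10 ^ 9 / e)) * ((m • B).card : ℝ) ^ e *
    (((m • B).card : ℝ) / B.card) ^ (2016 / (Nat.log 2 m : ℝ))

theorem VV_pos (e : ℝ) (m : ℕ) (B : Finset ℤ) (hB : B.Nonempty) : 0 < VV e m B := by
  have p1 : (0 : ℝ) < B.card := by exact_mod_cast hB.card_pos
  have p2 : (0 : ℝ) < (m • B).card := by exact_mod_cast (hB.nsmul (n := m)).card_pos
  unfold VV
  positivity

theorem exists_partner (B : Finset ℤ) (hB : B.Nonempty) (m : ℕ) (hm : 2 ≤ m) (e : ℝ)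
    (he : 0 < e) :
    ∃ P : Finset ℤ, P.Nonempty ∧ ∀ A : Finset ℤ, A.Nonempty → A ⊆ B →
      WW e A P P ≤ VV e m B := by
  obtain ⟨P, hP, h1, h2, h3⟩ := exists_scale B hB m hm
  refine ⟨P, hP, fun A hA hAB => ?_⟩
  have p1 : (0 : ℝ) < B.card := by exact_mod_cast hB.card_pos
  have p2 : (0 : ℝ) < (m • B).card := by exact_mod_cast (hB.nsmul (n := m)).card_pos
  have p3 : (0 : ℝ) < P.card := by exact_mod_cast hP.card_pos
  have p4 : (0 : ℝ) < (A + P).card := by exact_mod_cast (hA.add hP).card_pos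
  have hV : VV e m B = Real.exp (Real.exp (10 ^ 9 / e) + log ((m • B).card : ℝ) * e +
      (log ((m • B).card : ℝ) - log B.card) * (2016 / (Nat.log 2 m : ℝ))) := by
    unfold VV
    rw [Real.rpow_def_of_pos p2, Real.rpow_def_of_pos (div_pos p2 p1),
      Real.log_div p2.ne' p1.ne', ← Real.exp_add, ← Real.exp_add]
  rw [WW_eq e A P P hA hP hP, hV, Real.exp_le_exp]
  unfold WL D2
  have h4 : log ((A + P).card : ℝ) ≤ log ((B + P).card : ℝ) :=
    Real.log_le_log p4 (by exact_mod_cast Finset.card_le_card (Finset.add_subset_add_right hAB))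
  have h5 : log (P.card : ℝ) * e ≤ log ((m • B).card : ℝ) * e :=
    mul_le_mul_of_nonneg_right (Real.log_le_log p3 h1) he.le
  have h6 : (log ((m • B).card : ℝ) - log B.card) * (2016 / (Nat.log 2 m : ℝ)) =
      2016 * ((log ((m • B).card : ℝ) - log B.card) / (Nat.log 2 m : ℝ)) := by ring
  rw [h6]
  linarith

/-- The number of factorisations in terms of the `m`-fold sums. -/
theorem mPoint (k : ℕ) (hk : 1 ≤ k) (t : ℝ) (ht : 1 ≤ t) (htk : t ≤ 16 * k) (e : ℝ) (he : 0 < e)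
    (he1 : e ≤ 1) (m : ℕ) (hm : 2 ≤ m) (A B : Finset ℤ) (hB : B.Nonempty) (hAB : A ⊆ B)
    (x : ℤ) (hx : x ≠ 0) :
    ((Fac (fun _ : Fin k => A) x).card : ℝ) ≤
      (A.card : ℝ) ^ (k * (1 - tau k t)) * VV e m B ^ ((3 + log t) * (k * tau k t)) := by
  have hk0 : (0 : ℝ) < k := by exact_mod_cast hk
  have ht0 : 0 < t := by linarith
  have hV := VV_pos e m B hB
  rcases (Fac (fun _ : Fin k => A) x).eq_empty_or_nonempty with h0 | hne
  · rw [h0, Finset.card_empty, Nat.cast_zero]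
    positivity
  obtain ⟨r, hr⟩ := hne
  have hA : A.Nonempty := ⟨r ⟨0, hk⟩, Fintype.mem_piFinset.1 (Finset.mem_filter.1 hr).1 ⟨0, hk⟩⟩
  obtain ⟨P, hP, h1⟩ := exists_partner B hB m hm e he
  have h2 := point k hk e he he1 t ht htk (fun _ => A) (fun _ => P) (fun _ => P)
    (fun _ => hP) (fun _ => hP) x hx
  refine h2.trans ?_
  rw [Finset.prod_const, Finset.card_univ, Fintype.card_fin]
  have p0 : (0 : ℝ) < A.card := by exact_mod_cast hA.card_pos
  have hW : 0 < WW e A P P := by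
    rw [WW_eq e A P P hA hP hP]
    exact Real.exp_pos _
  have hτ := tau_nonneg k t hk0 ht0 htk
  have hlt := Real.log_nonneg ht
  rw [mul_pow, ← Real.rpow_mul_natCast p0.le, ← Real.rpow_mul_natCast hW.le]
  have e1 : (1 - tau k t) * (k : ℝ) = k * (1 - tau k t) := by ring
  have e2 : (3 + log t) * tau k t * (k : ℝ) = (3 + log t) * (k * tau k t) := by ring
  rw [e1, e2]
  refine mul_le_mul_of_nonneg_left ?_ (Real.rpow_nonneg p0.le _)
  exact Real.rpow_le_rpow hW.le (h1 A hA hAB) (by positivity)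

/-- Product sets in terms of the `m`-fold sums. -/
theorem mGrow (k : ℕ) (hk : 1 ≤ k) (t : ℝ) (ht : 1 ≤ t) (htk : t ≤ 16 * k) (e : ℝ) (he : 0 < e)
    (he1 : e ≤ 1) (m : ℕ) (hm : 2 ≤ m) (A B : Finset ℤ) (hA : A.Nonempty) (hAB : A ⊆ B)
    (h0 : (0 : ℤ) ∉ A) :
    ((A.card : ℝ) / VV e m B ^ (3 + log t)) ^ (k * tau k t) ≤
      (((Fintype.piFinset fun _ : Fin k => A).image fun f => ∏ i, f i).card : ℝ) := by
  have hk0 : (0 : ℝ) < k := by exact_mod_cast hk
  have ht0 : 0 < t := by linarith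
  have hB : B.Nonempty := hA.mono hAB
  have hV := VV_pos e m B hB
  obtain ⟨P, hP, h1⟩ := exists_partner B hB m hm e he
  have h2 := growth k hk e he he1 t ht htk (fun _ => A) (fun _ => P) (fun _ => P)
    (fun _ => hA) (fun _ => h0) (fun _ => hP) (fun _ => hP)
  rw [prod_eq_image] at h2
  refine le_trans ?_ h2
  rw [Finset.prod_const, Finset.card_univ, Fintype.card_fin]
  have p0 : (0 : ℝ) < A.card := by exact_mod_cast hA.card_pos
  have hW : 0 < WW e A P P := by
    rw [WW_eq e A P P hA hP hP]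
    exact Real.exp_pos _
  have hτ := tau_nonneg k t hk0 ht0 htk
  have hlt := Real.log_nonneg ht
  have hWp : 0 < WW e A P P ^ (3 + log t) := Real.rpow_pos_of_pos hW _
  have hVp : 0 < VV e m B ^ (3 + log t) := Real.rpow_pos_of_pos hV _
  rw [← Real.rpow_mul_natCast (div_nonneg p0.le hWp.le), mul_comm (tau k t)]
  refine Real.rpow_le_rpow (div_nonneg p0.le hVp.le) ?_ (by positivity)
  refine div_le_div_of_nonneg_left p0.le hWp ?_
  exact Real.rpow_le_rpow hW.le (h1 A hA hAB) (by positivity)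

end Pool.Agent.H87.PT
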